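import Pool.Agent.H27.Z12.BMDefs

/-!
Lists of entries of a table (MP_1e71f9_co).
-/

set_option autoImplicit false

namespace Pool.Agent.H27.Z12.BM

/-- Members of a list. -/
def All (p : Nat → Prop) : CL → Prop
  | CL.nil => True
  | CL.cons g L => p g ∧ All p L

theorem All.imp {p q : Nat → Prop} (h : ∀ g, p g → q g) : ∀ {L : CL}, All p L → All q L
  | CL.nil, _ => trivial
  | CL.cons _ _, hL => ⟨h _ hL.1, All.imp h hL.2⟩

/-- The entries of a list are entries of the table `Q`. -/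
def AllQ (Q : Nat → Nat) (L : CL) : Prop := All (fun g => ∃ i, g = Q i) L

theorem AllQ.nil {Q : Nat → Nat} : AllQ Q CL.nil := trivial

theorem AllQ.rdA {Q : Nat → Nat} {S : Nat} {L : CL} (hL : AllQ Q L) : ∀ n, AllQ Q (rdA Q S n L)
  | 0 => hL
  | n + 1 => ⟨⟨ix S n, rfl⟩, AllQ.rdA hL n⟩

end Pool.Agent.H27.Z12.BM
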