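import Mathlib
import Pool.Agent.H27.Z12.BMAll

/-!
Soundness of the kernel evaluation of a cover by bitmaps (MP_1e71f9_co).
-/

set_option autoImplicit false

namespace Pool.Agent.H27.Z12.BM

theorem band_and {a b : Bool} (h : band a b = true) : a = true ∧ b = true := by
  cases a
  · exact absurd h Bool.noConfusion
  · exact ⟨rfl, h⟩

theorem tb_gM (g i : ℕ) : (gM g).testBit i = (g.testBit i && decide (i < 37)) := by
  have e : gM g = g &&& (2 ^ 37 - 1) := rfl
  rw [e, Nat.testBit_and, Nat.testBit_two_pow_sub_one]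

theorem tb_gV (g i : ℕ) : (gV g).testBit i = (g.testBit (37 + i) && decide (i < 37)) := by
  have e : gV g = (g >>> 37) &&& (2 ^ 37 - 1) := rfl
  rw [e, Nat.testBit_and, Nat.testBit_two_pow_sub_one, Nat.testBit_shiftRight]

theorem kM_eq (u : ℕ) : kM u = 2 ^ u := by
  have e : kM u = 1 <<< u := rfl
  rw [e, Nat.shiftLeft_eq, one_mul]

theorem tb_kM (u i : ℕ) : (kM u).testBit i = decide (u = i) := by
  rw [kM_eq, Nat.testBit_two_pow]

theorem tb_kV (u i : ℕ) : (kV u).testBit i = decide (37 + u = i) := by
  have e : kV u = (2 ^ 37) <<< u := rfl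
  rw [e, Nat.shiftLeft_eq, ← pow_add, Nat.testBit_two_pow]

theorem tb_kB (u i : ℕ) : (kB u).testBit i = (decide (u = i) || decide (37 + u = i)) := by
  have e : kB u = (1 ||| 2 ^ 37) <<< u := rfl
  rw [e, Nat.shiftLeft_or_distrib, Nat.testBit_or, Nat.shiftLeft_eq, Nat.shiftLeft_eq, one_mul,
    ← pow_add, Nat.testBit_two_pow, Nat.testBit_two_pow]

theorem beq_eq {a b : ℕ} (h : Nat.beq a b = true) : a = b := Nat.eq_of_beq_eq_true h

theorem beq_ne {a b : ℕ} (h : Nat.beq a b = false) : a ≠ b := Nat.ne_of_beq_eq_false h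

/-- The entry without value bit at `u`. -/
theorem t0_false {u g : ℕ} (h : t0 u g = false) : g.testBit (37 + u) = false := by
  rcases hb : g.testBit (37 + u) with _ | _
  · rfl
  · exfalso
    refine beq_ne h (Nat.eq_of_testBit_eq fun i => ?_)
    have e : Nat.land g (kV u) = g &&& kV u := rfl
    rw [e, Nat.testBit_and, tb_kV]
    by_cases hi : 37 + u = i
    · subst hi
      rw [hb, Bool.true_and]
    · rw [decide_eq_false hi, Bool.and_false]

theorem t1_false {u g : ℕ} (h : t1 u g = false) (hm : g.testBit u = true) :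
    g.testBit (37 + u) = true := by
  rcases hb : g.testBit (37 + u) with _ | _
  · exfalso
    refine beq_ne h (Nat.eq_of_testBit_eq fun i => ?_)
    have e : Nat.land g (kB u) = g &&& kB u := rfl
    rw [e, Nat.testBit_and, tb_kB, tb_kM]
    by_cases hi : u = i
    · subst hi
      rw [hm, decide_eq_true rfl, Bool.true_or, Bool.true_and]
    · rw [decide_eq_false hi, Bool.false_or]
      by_cases hj : 37 + u = i
      · subst hj
        rw [hb, Bool.false_and]
      · rw [decide_eq_false hj, Bool.and_false]
  · rfl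

/-- Bits of one step of the bitmap. -/
theorem shift_bit {B n y : ℕ} (hB : ∀ z, B.testBit z = true → z < 2 ^ n)
    (h : (B <<< (2 ^ n)).testBit y = true) :
    ∃ z, B.testBit z = true ∧ y = z + 2 ^ n ∧ y < 2 ^ (n + 1) ∧ y.testBit n = true ∧
      ∀ i < n, y.testBit i = z.testBit i := by
  rw [Nat.testBit_shiftLeft, Bool.and_eq_true, decide_eq_true_iff] at h
  obtain ⟨h1, h2⟩ := h
  have hz := hB _ h2
  refine ⟨y - 2 ^ n, h2, by omega, by rw [pow_succ]; omega, ?_, ?_⟩
  · have e : y = 2 ^ n + (y - 2 ^ n) := by omega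
    rw [e, Nat.testBit_two_pow_add_eq, Nat.testBit_lt_two_pow hz]
    rfl
  · intro i hi
    have e : y = 2 ^ n + (y - 2 ^ n) := by omega
    conv_lhs => rw [e]
    exact Nat.testBit_two_pow_add_gt hi _

variable {O : ℕ}

theorem bm_succ (g n : ℕ) : bm O g (n + 1) =
    bmS (g &&& kB (ov O n)) (ov O n) (1 <<< n) (bm O g n) := rfl

/-- **The bitmap of an entry.** -/
theorem bm_spec (g : ℕ) : ∀ (n y : ℕ), (bm O g n).testBit y = true →
    y < 2 ^ n ∧ ∀ i < n, g.testBit (ov O i) = true → y.testBit i = g.testBit (37 + ov O i)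
  | 0, y, h => by
    have e : bm O g 0 = 2 ^ 0 := rfl
    rw [e, Nat.testBit_two_pow, decide_eq_true_iff] at h
    exact ⟨by omega, fun i hi => absurd hi (Nat.not_lt_zero i)⟩
  | n + 1, y, h => by
    have ih := bm_spec g n
    have hB : ∀ z, (bm O g n).testBit z = true → z < 2 ^ n := fun z hz => (ih z hz).1
    rw [bm_succ] at h
    have e1 : (1 : ℕ) <<< n = 2 ^ n := by rw [Nat.shiftLeft_eq, one_mul]
    rw [e1] at h
    have hlt : 2 ^ n < 2 ^ (n + 1) := Nat.pow_lt_pow_right (by norm_num) (Nat.lt_succ_self n)
    have key : ∀ y : ℕ, (bm O g n).testBit y = true → y < 2 ^ (n + 1) ∧ y.testBit n = false ∧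
        ∀ i < n, g.testBit (ov O i) = true → y.testBit i = g.testBit (37 + ov O i) := by
      intro y hy
      have := ih y hy
      exact ⟨this.1.trans hlt, Nat.testBit_lt_two_pow this.1, this.2⟩
    have key2 : ∀ y : ℕ, (bm O g n <<< (2 ^ n)).testBit y = true → y < 2 ^ (n + 1) ∧
        y.testBit n = true ∧
        ∀ i < n, g.testBit (ov O i) = true → y.testBit i = g.testBit (37 + ov O i) := by
      intro y hy
      obtain ⟨z, hz, _, hlt, hn, hi⟩ := shift_bit hB hy
      refine ⟨hlt, hn, fun i hin hg => ?_⟩
      rw [hi i hin]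
      exact (ih z hz).2 i hin hg
    unfold bmS at h
    rcases hx : Nat.beq (g &&& kB (ov O n)) 0 with _ | _
    · rw [hx] at h
      rcases hx2 : Nat.beq (g &&& kB (ov O n)) (kM (ov O n)) with _ | _
      · rw [hx2] at h
        have h' : (bm O g n <<< (2 ^ n)).testBit y = true := h
        obtain ⟨a, b, c⟩ := key2 y h'
        refine ⟨a, fun i hi hg => ?_⟩
        rcases Nat.lt_succ_iff_lt_or_eq.1 hi with hi | rfl
        · exact c i hi hg
        · rw [b]
          symm
          rcases hb : g.testBit (37 + ov O i) with _ | _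
          · exfalso
            refine beq_ne hx2 (Nat.eq_of_testBit_eq fun j => ?_)
            rw [Nat.testBit_and, tb_kB, tb_kM]
            by_cases hj : ov O i = j
            · subst hj
              rw [hg, decide_eq_true rfl, Bool.true_or, Bool.true_and]
            · rw [decide_eq_false hj, Bool.false_or]
              by_cases hj' : 37 + ov O i = j
              · subst hj'
                rw [hb, Bool.false_and]
              · rw [decide_eq_false hj', Bool.and_false]
          · rfl
      · rw [hx2] at h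
        have h' : (bm O g n).testBit y = true := h
        obtain ⟨a, b, c⟩ := key y h'
        refine ⟨a, fun i hi hg => ?_⟩
        rcases Nat.lt_succ_iff_lt_or_eq.1 hi with hi | rfl
        · exact c i hi hg
        · rw [b]
          have hc := beq_eq hx2
          have h3 : (g &&& kB (ov O i)).testBit (37 + ov O i) = (kM (ov O i)).testBit (37 + ov O i) := by
            rw [hc]
          rw [Nat.testBit_and, tb_kB, tb_kM, decide_eq_true (rfl : 37 + ov O i = 37 + ov O i),
            Bool.or_true, Bool.and_true, decide_eq_false (by omega)] at h3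
          exact h3.symm
    · rw [hx] at h
      have h' : (bm O g n ||| bm O g n <<< (2 ^ n)).testBit y = true := h
      have hz : g.testBit (ov O n) = false := by
        have hc : g &&& kB (ov O n) = 0 := beq_eq hx
        have h3 : (g &&& kB (ov O n)).testBit (ov O n) = false := by rw [hc, Nat.zero_testBit]
        rw [Nat.testBit_and, tb_kB, decide_eq_true rfl, Bool.true_or, Bool.and_true] at h3
        exact h3
      rw [Nat.testBit_or, Bool.or_eq_true] at h'
      rcases h' with h' | h'
      · obtain ⟨a, b, c⟩ := key y h'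
        refine ⟨a, fun i hi hg => ?_⟩
        rcases Nat.lt_succ_iff_lt_or_eq.1 hi with hi | rfl
        · exact c i hi hg
        · rw [hz] at hg
          exact absurd hg Bool.false_ne_true
      · obtain ⟨a, b, c⟩ := key2 y h'
        refine ⟨a, fun i hi hg => ?_⟩
        rcases Nat.lt_succ_iff_lt_or_eq.1 hi with hi | rfl
        · exact c i hi hg
        · rw [hz] at hg
          exact absurd hg Bool.false_ne_true

/-- The values of the entry are at signs of its mask. -/
def WF (g : ℕ) : Prop := gV g &&& gM g = gV g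

/-- The entry agrees with `x` outside of `H` and of the low signs. -/
def Comp (O x H g : ℕ) : Prop := ∀ u < 37, g.testBit u = true → H.testBit u = true ∨
  (∃ i < 16, ov O i = u) ∨ x.testBit u = g.testBit (37 + u)

/-- Agreement at all signs. -/
theorem hit_of {x g : ℕ} (hw : WF g)
    (h : ∀ u < 37, g.testBit u = true → x.testBit u = g.testBit (37 + u)) :
    x &&& gM g = gV g := by
  apply Nat.eq_of_testBit_eq
  intro u
  rw [Nat.testBit_and, tb_gM]
  by_cases hu : u < 37
  · rw [decide_eq_true hu, Bool.and_true]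
    rcases hb : g.testBit u with _ | _
    · rw [Bool.and_false]
      symm
      rw [← hw, Nat.testBit_and, tb_gM, hb, Bool.false_and, Bool.and_false]
    · rw [Bool.and_true, tb_gV, decide_eq_true hu, Bool.and_true]
      exact h u hu hb
  · rw [decide_eq_false hu, Bool.and_false, Bool.and_false, tb_gV, decide_eq_false hu,
      Bool.and_false]

section

variable {x y : ℕ} {E : ℕ → Prop} {P : Prop}

/-- A kept entry. -/
def Keep (O x : ℕ) (E : ℕ → Prop) (H g : ℕ) : Prop := E g ∧ WF g ∧ Comp O x H g

theorem flt_spec (hy : ∀ i < 16, y.testBit i = x.testBit (ov O i))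
    (hP : ∀ g, E g → x &&& gM g = gV g → P) {t : ℕ → Bool} {H : ℕ} {k : CL → ℕ → Bool}
    (hk : ∀ R acc, All (Keep O x E H) R → (acc.testBit y = true → P) → k R acc = true → P) :
    ∀ (L : CL) (acc : ℕ) (R : CL), All (fun g => E g ∧ (t g = false → WF g ∧ Comp O x H g)) L →
      (acc.testBit y = true → P) → All (Keep O x E H) R → flt O t H k L acc R = true → P
  | CL.nil, acc, R, _, ha, hR, h => hk R acc hR ha h
  | CL.cons g L, acc, R, hL, ha, hR, h => by
    have h' : @Bool.rec (fun _ => Bool)
      (@Bool.rec (fun _ => Bool) (flt O t H k L acc (CL.cons g R))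
        (flt O t H k L (acc ||| bm O g 16) R) (Nat.beq (g &&& H) 0))
      (flt O t H k L acc R) (t g) = true := h
    rcases ht : t g with _ | _
    · rw [ht] at h'
      obtain ⟨hE, hw, hc⟩ : E g ∧ WF g ∧ Comp O x H g := ⟨hL.1.1, hL.1.2 ht⟩
      rcases hb : Nat.beq (g &&& H) 0 with _ | _
      · rw [hb] at h'
        exact flt_spec hy hP hk L acc (CL.cons g R) hL.2 ha ⟨⟨hE, hw, hc⟩, hR⟩ h'
      · rw [hb] at h'
        refine flt_spec hy hP hk L _ R hL.2 ?_ hR h'
        intro hz
        rw [Nat.testBit_or, Bool.or_eq_true] at hz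
        rcases hz with hz | hz
        · exact ha hz
        · refine hP g hE (hit_of hw fun u hu hg => ?_)
          rcases hc u hu hg with h1 | ⟨i, hi, rfl⟩ | h1
          · exfalso
            have h2 : (g &&& H).testBit u = false := by rw [beq_eq hb, Nat.zero_testBit]
            rw [Nat.testBit_and, hg, h1] at h2
            exact Bool.noConfusion h2
          · rw [← hy i hi]
            exact (bm_spec g 16 y hz).2 i hi hg
          · exact h1
    · rw [ht] at h'
      exact flt_spec hy hP hk L acc R hL.2 ha hR h'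

theorem full_eq : full = 2 ^ 65536 - 1 := by decide +kernel

theorem full_bit (hy : y < 2 ^ 16) : full.testBit y = true := by
  rw [full_eq, Nat.testBit_two_pow_sub_one, decide_eq_true_iff]
  exact hy

theorem msk_succ (a n : ℕ) : msk O a (n + 1) = msk O a n ||| kM (ov O (a + n)) := rfl

theorem cov_spec (hy16 : y < 2 ^ 16) (hy : ∀ i < 16, y.testBit i = x.testBit (ov O i))
    (hP : ∀ g, E g → x &&& gM g = gV g → P) :
    ∀ (n : ℕ) (L : CL) (acc : ℕ), All (Keep O x E (msk O 16 n)) L → (acc.testBit y = true → P) →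
      cov O n L acc = true → P
  | 0, L, acc, _, ha, h => by
    have h' : Nat.beq acc full = true := h
    refine ha ?_
    rw [beq_eq h']
    exact full_bit hy16
  | n + 1, L, acc, hL, ha, h => by
    have h' : @Bool.rec (fun _ => Bool)
      (band (flt O (t0 (ov O (16 + n))) (msk O 16 n) (cov O n) L acc CL.nil)
        (flt O (t1 (ov O (16 + n))) (msk O 16 n) (cov O n) L acc CL.nil))
      true (Nat.beq acc full) = true := h
    rcases hb : Nat.beq acc full with _ | _
    · rw [hb] at h'
      obtain ⟨h0, h1⟩ := band_and h'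
      have hk : ∀ R acc, All (Keep O x E (msk O 16 n)) R → (acc.testBit y = true → P) →
          cov O n R acc = true → P := fun R acc hR ha h => cov_spec hy16 hy hP n R acc hR ha h
      rcases hx : x.testBit (ov O (16 + n)) with _ | _
      · refine flt_spec hy hP hk L acc CL.nil (hL.imp ?_) ha trivial h0
        rintro g ⟨hE, hw, hc⟩
        refine ⟨hE, fun ht => ⟨hw, fun u hu hg => ?_⟩⟩
        rcases hc u hu hg with h2 | h2 | h2
        · rw [msk_succ, Nat.testBit_or, Bool.or_eq_true, tb_kM, decide_eq_true_iff] at h2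
          rcases h2 with h2 | rfl
          · exact Or.inl h2
          · right; right
            rw [hx, t0_false ht]
        · exact Or.inr (Or.inl h2)
        · exact Or.inr (Or.inr h2)
      · refine flt_spec hy hP hk L acc CL.nil (hL.imp ?_) ha trivial h1
        rintro g ⟨hE, hw, hc⟩
        refine ⟨hE, fun ht => ⟨hw, fun u hu hg => ?_⟩⟩
        rcases hc u hu hg with h2 | h2 | h2
        · rw [msk_succ, Nat.testBit_or, Bool.or_eq_true, tb_kM, decide_eq_true_iff] at h2
          rcases h2 with h2 | rfl
          · exact Or.inl h2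
          · right; right
            rw [hx, t1_false ht hg]
        · exact Or.inr (Or.inl h2)
        · exact Or.inr (Or.inr h2)
    · refine ha ?_
      rw [beq_eq hb]
      exact full_bit hy16

theorem tI_false {Xm X g : ℕ} (h : tI Xm X g = false) (hx : x &&& Xm = X) :
    WF g ∧ ∀ u < 37, Xm.testBit u = true → g.testBit u = true →
      x.testBit u = g.testBit (37 + u) := by
  unfold tI at h
  rcases h1 : Nat.beq (Nat.land (gV g) (gM g)) (gV g) with _ | _
  · rw [h1] at h
    exact absurd h Bool.noConfusion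
  · rw [h1] at h
    rcases h2 : Nat.beq (Nat.land (Nat.land (Nat.xor (gV g) X) (gM g)) Xm) 0 with _ | _
    · rw [h2] at h
      exact absurd h Bool.noConfusion
    · refine ⟨beq_eq h1, fun u hu hm hg => ?_⟩
      have h3 : ((gV g ^^^ X) &&& gM g) &&& Xm = 0 := beq_eq h2
      have h4 : (((gV g ^^^ X) &&& gM g) &&& Xm).testBit u = false := by
        rw [h3, Nat.zero_testBit]
      rw [Nat.testBit_and, Nat.testBit_and, Nat.testBit_xor, tb_gM, tb_gV, hm, hg,
        decide_eq_true hu, Bool.and_true, Bool.and_true, Bool.and_true, Bool.and_true] at h4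
      have h5 : X.testBit u = x.testBit u := by
        rw [← hx, Nat.testBit_and, hm, Bool.and_true]
      rw [h5] at h4
      revert h4
      cases x.testBit u <;> cases g.testBit (37 + u) <;> simp

theorem msk_bit (a u : ℕ) : ∀ n, (msk O a n).testBit u = true → ∃ i < n, ov O (a + i) = u
  | 0, h => by
    have e : msk O a 0 = 0 := rfl
    rw [e, Nat.zero_testBit] at h
    exact absurd h Bool.false_ne_true
  | n + 1, h => by
    rw [msk_succ, Nat.testBit_or, Bool.or_eq_true, tb_kM, decide_eq_true_iff] at h
    rcases h with h | h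
    · obtain ⟨i, hi, e⟩ := msk_bit a u n h
      exact ⟨i, hi.trans (Nat.lt_succ_self n), e⟩
    · exact ⟨n, Nat.lt_succ_self n, h⟩

/-- **A cube covered by a list.** -/
theorem top_spec {n Xm X : ℕ} {L : CL} (hL : All E L) (hx : x &&& Xm = X)
    (h : top O n Xm X L = true) : ∃ g, E g ∧ x &&& gM g = gV g := by
  obtain ⟨h1, h2⟩ := band_and h
  have h1' : (Xm ||| msk O 16 n) ||| msk O 0 16 = 2 ^ 37 - 1 := beq_eq h1
  have hy : ∀ i < 16, (Nat.ofBits fun i : Fin 16 => x.testBit (ov O i)).testBit i =
      x.testBit (ov O i) := fun i hi => by rw [Nat.testBit_ofBits_lt _ _ hi]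
  have hy16 : (Nat.ofBits fun i : Fin 16 => x.testBit (ov O i)) < 2 ^ 16 :=
    Nat.ofBits_lt_two_pow _
  refine flt_spec (P := ∃ g, E g ∧ x &&& gM g = gV g) (E := E) hy (fun g hE hg => ⟨g, hE, hg⟩)
    (fun R acc hR ha hk => cov_spec hy16 hy (fun g hE hg => ⟨g, hE, hg⟩) n R acc hR ha hk)
    L 0 CL.nil ?_ ?_ trivial h2
  · refine hL.imp fun g hE => ⟨hE, fun ht => ?_⟩
    obtain ⟨hw, hc⟩ := tI_false ht hx
    refine ⟨hw, fun u hu hg => ?_⟩
    have h3 : ((Xm ||| msk O 16 n) ||| msk O 0 16).testBit u = true := by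
      rw [h1', Nat.testBit_two_pow_sub_one, decide_eq_true_iff]
      exact hu
    rw [Nat.testBit_or, Nat.testBit_or, Bool.or_eq_true, Bool.or_eq_true] at h3
    rcases h3 with (h3 | h3) | h3
    · exact Or.inr (Or.inr (hc u hu h3 hg))
    · exact Or.inl h3
    · obtain ⟨i, hi, e⟩ := msk_bit 0 u 16 h3
      exact Or.inr (Or.inl ⟨i, hi, by rw [← e, Nat.zero_add]⟩)
  · intro h0
    rw [Nat.zero_testBit] at h0
    exact absurd h0 Bool.false_ne_true

end

end Pool.Agent.H27.Z12.BM
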