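import Mathlib
import Pool.Agent.H28.Z12.STree
import Pool.Agent.H27.Z12.BM

/-!
Cubes of sign patterns covered by excluded cubes (MP_1e71f9_co).
-/

set_option autoImplicit false

namespace Pool.Agent.H27.Z12.BM

open Pool.Agent.H77.Z12 Pool.Agent.H28.Z12

variable {O : ℕ}

/-- All entries of the table are excluded. -/
def OKQ (R : St36 → ℕ) (Q : ℕ → ℕ) : Prop := ∀ i, Ex R (Cov.gM (Q i)) (Cov.gV (Q i))

theorem ex_never {R : St36 → ℕ} :
    Ex R (Cov.gM (nat_lit 137438953472)) (Cov.gV (nat_lit 137438953472)) := by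
  intro M _ _ _ _ ha
  have h : enc (stt M) &&& Cov.gM 137438953472 = Cov.gV 137438953472 := ha
  have e1 : Cov.gM 137438953472 = 0 := by decide +kernel
  have e2 : Cov.gV 137438953472 = 1 := by decide +kernel
  rw [e1, e2, Nat.and_zero] at h
  exact absurd h (by norm_num)

theorem OKQ.emp {R : St36 → ℕ} : OKQ R emp := fun _ => ex_never

theorem OKQ.br {R : St36 → ℕ} {A B : ℕ → ℕ} (b : ℕ) (hA : OKQ R A) (hB : OKQ R B) :
    OKQ R (br b A B) := fun i => by
  unfold BM.br
  cases Nat.beq (Nat.land (Nat.shiftRight i b) 1) 1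
  · exact hA i
  · exact hB i

/-- Entries of 80 bits. -/
noncomputable def e80 (T j : ℕ) : ℕ :=
  Nat.land (Nat.shiftRight T (Nat.mul (nat_lit 80) j)) (nat_lit 18889465931478580854783)

theorem OKQ.seg {R : St36 → ℕ} {T n : ℕ} (h : ∀ j < n, Ex R (Cov.gM (e80 T j)) (Cov.gV (e80 T j))) :
    OKQ R (seg T n) := fun i => by
  unfold BM.seg
  rcases hb : Nat.ble (Nat.succ (Nat.land i 1023)) n with _ | _
  · exact ex_never
  · exact h _ (Nat.le_of_ble_eq_true hb)

/-- **A cube covered by excluded entries is excluded.** -/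
theorem ex_of_top {R : St36 → ℕ} {Q : ℕ → ℕ} {n Xm X : ℕ} {L : CL}
    (hQ : OKQ R Q) (hL : AllQ Q L) (h : top O n Xm X L = true) : Ex R Xm X := by
  intro M hb hM hx hr ha
  obtain ⟨g, ⟨i, rfl⟩, hg⟩ := top_spec hL ha h
  exact hQ i M hb hM hx hr hg

/-- All entries below `n` of the table `T` are excluded. -/
def TX (R : St36 → ℕ) (T n : ℕ) : Prop := ∀ i < n, Ex R (nM T i) (nV T i)

theorem TX.zero {R : St36 → ℕ} (T : ℕ) : TX R T 0 := fun _ h => absurd h (Nat.not_lt_zero _)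

theorem TX.succ {R : St36 → ℕ} {T n : ℕ} (h : TX R T n) (hn : Ex R (nM T n) (nV T n)) :
    TX R T (n + 1) := fun i hi => by
  rcases Nat.lt_succ_iff_lt_or_eq.1 hi with hi | rfl
  · exact h i hi
  · exact hn

theorem fc_eq (x : ℕ) (f : ℕ → ℕ) : fc x f = f x := by
  cases x <;> rfl

theorem hitT_spec {R : St36 → ℕ} {T nT Xm X i : ℕ} (hT : TX R T nT)
    (h : hitT T nT Xm X i = true) : Ex R Xm X := by
  obtain ⟨h1, h2⟩ := band_and h
  obtain ⟨h3, h4⟩ := band_and h2
  have := hT i (Nat.le_of_ble_eq_true h1)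
  rwa [beq_eq h3, beq_eq h4] at this

theorem asm_spec {R : St36 → ℕ} {T nT : ℕ} (hT : TX R T nT) :
    ∀ (n Xm X i : ℕ), asm O T nT n Xm X i ≠ 0 → Ex R Xm X
  | 0, Xm, X, i, h => by
    have h' : @Bool.rec (fun _ => ℕ) 0 (Nat.succ i) (hitT T nT Xm X i) ≠ 0 := h
    rcases hb : hitT T nT Xm X i with _ | _
    · rw [hb] at h'
      exact absurd rfl h'
    · exact hitT_spec hT hb
  | n + 1, Xm, X, i, h => by
    have h' : @Bool.rec (fun _ => ℕ)
      (fc (Xm ||| kM (ov O (16 + n))) fun Ym =>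
        fc (asm O T nT n Ym X i) fun j => @Bool.rec (fun _ => ℕ)
          (fc (X ||| kM (ov O (16 + n))) fun Y => asm O T nT n Ym Y j) 0
          (Nat.beq j 0))
      (Nat.succ i) (hitT T nT Xm X i) ≠ 0 := h
    rcases hb : hitT T nT Xm X i with _ | _
    · rw [hb] at h'
      have h2 : fc (Xm ||| kM (ov O (16 + n))) (fun Ym =>
        fc (asm O T nT n Ym X i) fun j => @Bool.rec (fun _ => ℕ)
          (fc (X ||| kM (ov O (16 + n))) fun Y => asm O T nT n Ym Y j) 0
          (Nat.beq j 0)) ≠ 0 := h'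
      rw [fc_eq, fc_eq] at h2
      have ek : kM (ov O (16 + n)) = 1 <<< ov O (16 + n) := rfl
      rcases hj : Nat.beq (asm O T nT n (Xm ||| kM (ov O (16 + n))) X i) 0 with _ | _
      · rw [hj] at h2
        have h3 : fc (X ||| kM (ov O (16 + n))) (fun Y => asm O T nT n (Xm ||| kM (ov O (16 + n))) Y
          (asm O T nT n (Xm ||| kM (ov O (16 + n))) X i)) ≠ 0 := h2
        rw [fc_eq] at h3
        have e0 := asm_spec hT n _ _ _ (beq_ne hj)
        have e1 := asm_spec hT n _ _ _ h3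
        rw [ek] at e0 e1
        exact ex_split e0 e1
      · rw [hj] at h2
        exact absurd rfl h2
    · exact hitT_spec hT hb

/-- **The cube `Xm, X` from the entries of the table.** -/
theorem ex_of_asm {R : St36 → ℕ} {T nT n Xm X : ℕ} (hT : TX R T nT)
    (h : Nat.ble 1 (asm O T nT n Xm X 0) = true) : Ex R Xm X :=
  asm_spec hT n Xm X 0 (Nat.pos_iff_ne_zero.1 (Nat.le_of_ble_eq_true h))

end Pool.Agent.H27.Z12.BM
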