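import Pool.Agent.H27.Z12.BMAll

/-!
Lists of entries of a table, given by the gaps between their numbers (MP_1e71f9_co).
-/

set_option autoImplicit false

namespace Pool.Agent.H27.Z12.BM

/-- Gap `k` of the list `S`, `B` bits each. -/
def gp (B S k : Nat) : Nat :=
  Nat.land (Nat.shiftRight S (Nat.mul B k)) (Nat.pred (Nat.shiftLeft (nat_lit 1) B))

/-- The entries number `b + gap (n - 1)`, `b + gap (n - 1) + gap (n - 2)`, .. in front of `L`. -/
noncomputable def rdG (Q : Nat → Nat) (B S : Nat) (L : CL) (n : Nat) : Nat → CL :=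
  @Nat.rec (fun _ => Nat → CL) (fun _ => L)
    (fun k ih b => @Nat.rec (fun _ => CL) CL.nil
      (fun i _ => @Nat.rec (fun _ => CL) CL.nil (fun g _ => CL.cons g (ih i)) (Nat.succ (Q i)))
      (Nat.succ (Nat.add b (gp B S k)))) n

theorem AllQ.rdG {Q : Nat → Nat} {B S : Nat} {L : CL} (hL : AllQ Q L) :
    ∀ n b, AllQ Q (rdG Q B S L n b)
  | 0, _ => hL
  | n + 1, b => ⟨⟨Nat.add b (gp B S n), rfl⟩, AllQ.rdG hL n _⟩

end Pool.Agent.H27.Z12.BM
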