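import Mathlib
import Pool.Agent.H28.Z12.Top
import Pool.Agent.H27.Z12.BMEx

/-!
Cubes of sign patterns excluded by symmetry (MP_1e71f9_co).
-/

set_option autoImplicit false

namespace Pool.Agent.H27.Z12.BM

open Pool.Agent.H77.Z12 Pool.Agent.H28.Z12

/-- The cube `gm, gv` is the image of the cube `m, w` (entry `g`) under both reversals. -/
noncomputable def mir (g m w gm gv : ℕ) : Bool :=
  band (band (Nat.beq (Cov.gM g) m) (Nat.beq (Cov.gV g) w)) (Cov.revG g gm gv)

/-- **The mirror image of an excluded cube is excluded.** -/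
theorem ex_mir {R : St36 → ℕ}
    (hR : ∀ (ρ γ : Equiv.Perm (Fin 6)) (s : St36), R (actS ρ γ s) = R s)
    {g m w gm gv : ℕ} (h : Ex R m w) (hc : mir g m w gm gv = true) : Ex R gm gv := by
  obtain ⟨h1, h2⟩ := band_and hc
  obtain ⟨h3, h4⟩ := band_and h1
  refine revG_spec hR (g := g) ?_ h2
  rw [beq_eq h3, beq_eq h4]
  exact h

end Pool.Agent.H27.Z12.BM
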