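import Pool.Agent.H27.Z12.BMDefs

/-!
Kernel evaluation of a cover of the sign patterns by bitmaps in a ternary tree (MP_1e71f9_co).
-/

set_option autoImplicit false

namespace Pool.Agent.H27.Z12.BM

/-- Trees: a set of patterns of the low signs and the trees for the entries without the next sign,
with value 0 and with value 1. -/
inductive BT where
  | e : BT
  | n : Nat → BT → BT → BT → BT

/-- The order of the low signs. -/
def lowO : Nat := nat_lit 23873019682129902638459527232

/-- Mask (bits 0 to 15) and value (from bit 37) of the entry `g` at the low signs. -/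
def ext (g : Nat) : Nat :=
  Nat.lor (Nat.lor (Nat.land g (nat_lit 1697508514345023))
    (Nat.land (Nat.shiftRight g (nat_lit 24)) (nat_lit 554153860403136)))
    (Nat.land (Nat.shiftRight g (nat_lit 4)) (nat_lit 6755399441104896))

/-- Evaluate `x` first. -/
noncomputable def frc (f : Nat → Nat) (x : Nat) : Nat :=
  @Nat.rec (fun _ => Nat) (nat_lit 0) (fun n _ => f n) (Nat.succ x)

/-- Doubling at the positions `b, .., b + n - 1` whose bit in `h` is zero. -/
noncomputable def dbl (b h n A : Nat) : Nat :=
  @Nat.rec (fun _ => Nat) A (fun i ih => @Bool.rec (fun _ => Nat) ih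
    (Nat.add ih (Nat.shiftLeft ih (Nat.shiftLeft (nat_lit 1) (Nat.add b i))))
    (Nat.beq (Nat.land (Nat.shiftRight h i) (nat_lit 1)) (nat_lit 0))) n

/-- The numbers below `2 ^ 8` without a bit in `h`. -/
noncomputable def F8 (h : Nat) : Nat := dbl (nat_lit 0) h (nat_lit 8) (nat_lit 1)
/-- The multiples of `2 ^ 8` below `2 ^ 16` without a bit in `h`, shifted by 8. -/
noncomputable def G8 (h : Nat) : Nat := dbl (nat_lit 8) h (nat_lit 8) (nat_lit 1)

/-- The patterns of the low signs which agree with the entry `g`. -/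
noncomputable def bmF (g : Nat) : Nat :=
  frc (fun r => frc (fun l => frc (fun h =>
      Nat.shiftLeft (Nat.mul (F8 l) (G8 h)) (Nat.shiftRight r (nat_lit 37)))
    (Nat.land (Nat.shiftRight r (nat_lit 8)) (nat_lit 255))) (Nat.land r (nat_lit 255))) (ext g)

/-- Pass through the list `L`: entries without a further sign in `H` are added to the set `a`, the
others are distributed by their literal at `u`; then `k`. -/
noncomputable def part (u H : Nat) (k : Nat → CL → CL → CL → Bool) (L : CL) :
    Nat → CL → CL → CL → Bool :=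
  @CL.rec (fun _ => Nat → CL → CL → CL → Bool) (fun a F Z W => k a F Z W)
    (fun g _ ih a F Z W => @Bool.rec (fun _ => Bool)
      (@Bool.rec (fun _ => Bool)
        (@Bool.rec (fun _ => Bool) (ih a F Z (CL.cons g W)) (ih a F (CL.cons g Z) W)
          (Nat.beq (Nat.land g (kB u)) (kM u)))
        (ih a (CL.cons g F) Z W) (Nat.beq (Nat.land g (kB u)) (nat_lit 0)))
      (ih (Nat.lor a (bmF g)) F Z W) (Nat.beq (Nat.land g H) (nat_lit 0))) L

/-- The tree of the list `L`, or `e` if `L` is empty; then `k`. -/
noncomputable def mkC (m : CL → Nat → (BT → Bool) → Bool) (L : CL) (k : BT → Bool) : Bool :=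
  @CL.rec (fun _ => Bool) (k BT.e) (fun _ _ _ => m L (nat_lit 0) k) L

/-- The tree of the list `L` and the set `acc`; then `k`. -/
noncomputable def mk (O n : Nat) : CL → Nat → (BT → Bool) → Bool :=
  @Nat.rec (fun _ => CL → Nat → (BT → Bool) → Bool)
    (fun L acc k => part (nat_lit 0) (nat_lit 0) (fun a _ _ _ => k (BT.n a BT.e BT.e BT.e)) L acc
      CL.nil CL.nil CL.nil)
    (fun n ih L acc k => part (ov O (Nat.add (nat_lit 16) n)) (msk O (nat_lit 16) (Nat.succ n))
      (fun a F Z W => mkC ih F fun f => mkC ih Z fun z => mkC ih W fun w => k (BT.n a f z w)) L acc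
      CL.nil CL.nil CL.nil) n

/-- Union of two trees. -/
noncomputable def uni : BT → BT → BT :=
  @BT.rec (fun _ => BT → BT) (fun t => t)
    (fun a f z w ihf ihz ihw t => @BT.rec (fun _ => BT) (BT.n a f z w)
      (fun b f' z' w' _ _ _ => BT.n (Nat.lor a b) (ihf f') (ihz z') (ihw w')) t)

/-- Every pattern is in `acc` or in the tree. -/
noncomputable def cvT (n : Nat) : BT → Nat → Bool :=
  @Nat.rec (fun _ => BT → Nat → Bool)
    (fun t acc => @BT.rec (fun _ => Bool) (Nat.beq acc full)
      (fun a _ _ _ _ _ _ => Nat.beq (Nat.lor acc a) full) t)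
    (fun _ ih t acc => @BT.rec (fun _ => Bool) (Nat.beq acc full)
      (fun a f z w _ _ _ => @Bool.rec (fun _ => Bool)
        (band (ih (uni f z) (Nat.lor acc a)) (ih (uni f w) (Nat.lor acc a))) true
        (Nat.beq (Nat.lor acc a) full)) t) n

/-- The cube `Xm, X` is covered by the list `L`; the variables number `16, .., 16 + n - 1` are
split. -/
noncomputable def topT (O n Xm X : Nat) (L : CL) : Bool :=
  band (band (Nat.beq (Nat.land O (nat_lit 79228162514264337593543950335)) lowO)
      (Nat.beq (Nat.lor (Nat.lor Xm (msk O (nat_lit 16) n)) (msk O (nat_lit 0) (nat_lit 16)))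
      (nat_lit 137438953471)))
    (flt O (tI Xm X) (msk O (nat_lit 16) n)
      (fun R acc => mk O n R acc fun t => cvT n t (nat_lit 0)) L (nat_lit 0) CL.nil)

end Pool.Agent.H27.Z12.BM
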