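import Mathlib
import Pool.Agent.H27.Z12.BM
import Pool.Agent.H27.Z12.BTDefs

/-!
Soundness of the cover by bitmaps in a ternary tree (MP_1e71f9_co).
-/

set_option autoImplicit false

namespace Pool.Agent.H27.Z12.BM


/-! ### The bitmap of an entry with fixed low signs -/

theorem frc_eq (f : ℕ → ℕ) (x : ℕ) : frc f x = f x := rfl

theorem lowO_ov {O : ℕ} (h : Nat.land O 79228162514264337593543950335 = lowO) {i : ℕ}
    (hi : i < 16) : ov O i = ov lowO i := by
  have e : ∀ T, ov T i = (T >>> (6 * i)) &&& 63 := fun _ => rfl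
  have e2 : Nat.land O 79228162514264337593543950335 = O &&& (2 ^ 96 - 1) := rfl
  rw [← h, e2, e, e]
  apply Nat.eq_of_testBit_eq
  intro j
  have e3 : (63 : ℕ) = 2 ^ 6 - 1 := rfl
  rw [e3, Nat.testBit_and, Nat.testBit_and, Nat.testBit_shiftRight, Nat.testBit_shiftRight,
    Nat.testBit_and, Nat.testBit_two_pow_sub_one, Nat.testBit_two_pow_sub_one]
  by_cases hj : j < 6
  · rw [decide_eq_true (by omega : 6 * i + j < 96), Bool.and_true]
  · rw [decide_eq_false hj, Bool.and_false, Bool.and_false]

/-- Positions. -/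
def K1 : ℕ := 1697508514345023
@[inherit_doc K1] def K2 : ℕ := 554153860403136
@[inherit_doc K1] def K3 : ℕ := 6755399441104896

theorem ext_mask (g : ℕ) : ∀ i < 16, (ext g).testBit i = g.testBit (ov lowO i) := by
  intro i hi
  have e : ext g = ((g &&& K1) ||| ((g >>> 24) &&& K2)) ||| ((g >>> 4) &&& K3) := rfl
  rw [e, Nat.testBit_or, Nat.testBit_or, Nat.testBit_and, Nat.testBit_and, Nat.testBit_and,
    Nat.testBit_shiftRight, Nat.testBit_shiftRight]
  have d : ∀ i < 16, K1.testBit i = (decide (i < 6) || decide (i = 12) || decide (i = 13)) ∧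
      K2.testBit i = (decide (6 ≤ i) && decide (i < 12)) ∧
      K3.testBit i = (decide (i = 14) || decide (i = 15)) ∧
      ov lowO i = (if i < 6 then i else if i < 12 then 24 + i else if i < 14 then i else 4 + i) := by
    decide +kernel
  obtain ⟨d1, d2, d3, d4⟩ := d i hi
  rw [d1, d2, d3, d4]
  by_cases h1 : i < 6
  · rw [if_pos h1, decide_eq_true h1, decide_eq_false (by omega : ¬ 6 ≤ i),
      decide_eq_false (by omega : ¬ i = 14), decide_eq_false (by omega : ¬ i = 15)]
    simp
  · rw [if_neg h1]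
    by_cases h2 : i < 12
    · rw [if_pos h2, decide_eq_false h1, decide_eq_false (by omega : ¬ i = 12),
        decide_eq_false (by omega : ¬ i = 13), decide_eq_true (by omega : 6 ≤ i),
        decide_eq_true h2, decide_eq_false (by omega : ¬ i = 14),
        decide_eq_false (by omega : ¬ i = 15)]
      simp
    · rw [if_neg h2]
      by_cases h3 : i < 14
      · rw [if_pos h3, decide_eq_false h2, decide_eq_false (by omega : ¬ i = 14),
          decide_eq_false (by omega : ¬ i = 15)]
        rcases (by omega : i = 12 ∨ i = 13) with rfl | rfl <;> simp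
      · rw [if_neg h3, decide_eq_false h2, decide_eq_false h1,
          decide_eq_false (by omega : ¬ i = 12), decide_eq_false (by omega : ¬ i = 13)]
        rcases (by omega : i = 14 ∨ i = 15) with rfl | rfl <;> simp

theorem ext_val (g : ℕ) : ∀ i < 16, (ext g).testBit (37 + i) = g.testBit (37 + ov lowO i) := by
  intro i hi
  have e : ext g = ((g &&& K1) ||| ((g >>> 24) &&& K2)) ||| ((g >>> 4) &&& K3) := rfl
  rw [e, Nat.testBit_or, Nat.testBit_or, Nat.testBit_and, Nat.testBit_and, Nat.testBit_and,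
    Nat.testBit_shiftRight, Nat.testBit_shiftRight]
  have d : ∀ i < 16, K1.testBit (37 + i) =
        (decide (i < 6) || decide (i = 12) || decide (i = 13)) ∧
      K2.testBit (37 + i) = (decide (6 ≤ i) && decide (i < 12)) ∧
      K3.testBit (37 + i) = (decide (i = 14) || decide (i = 15)) ∧
      ov lowO i = (if i < 6 then i else if i < 12 then 24 + i else if i < 14 then i else 4 + i) := by
    decide +kernel
  obtain ⟨d1, d2, d3, d4⟩ := d i hi
  rw [d1, d2, d3, d4]
  by_cases h1 : i < 6
  · rw [if_pos h1, decide_eq_true h1, decide_eq_false (by omega : ¬ 6 ≤ i),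
      decide_eq_false (by omega : ¬ i = 14), decide_eq_false (by omega : ¬ i = 15)]
    simp
  · rw [if_neg h1]
    by_cases h2 : i < 12
    · rw [if_pos h2, decide_eq_false h1, decide_eq_false (by omega : ¬ i = 12),
        decide_eq_false (by omega : ¬ i = 13), decide_eq_true (by omega : 6 ≤ i),
        decide_eq_true h2, decide_eq_false (by omega : ¬ i = 14),
        decide_eq_false (by omega : ¬ i = 15), (by omega : 24 + (37 + i) = 37 + (24 + i))]
      simp
    · rw [if_neg h2]
      by_cases h3 : i < 14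
      · rw [if_pos h3, decide_eq_false h2, decide_eq_false (by omega : ¬ i = 14),
          decide_eq_false (by omega : ¬ i = 15)]
        rcases (by omega : i = 12 ∨ i = 13) with rfl | rfl <;> simp
      · rw [if_neg h3, decide_eq_false h2, decide_eq_false h1,
          decide_eq_false (by omega : ¬ i = 12), decide_eq_false (by omega : ¬ i = 13),
          (by omega : 4 + (37 + i) = 37 + (4 + i))]
        rcases (by omega : i = 14 ∨ i = 15) with rfl | rfl <;> simp

theorem add_or {a b : ℕ} (ha : a < 2 ^ 16) (hb : b < 2 ^ 16) (h : a &&& b = 0) :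
    a + b = a ||| b := by
  have ta : (BitVec.ofNat 17 a).toNat = a := by
    rw [BitVec.toNat_ofNat, Nat.mod_eq_of_lt (by omega)]
  have tb : (BitVec.ofNat 17 b).toNat = b := by
    rw [BitVec.toNat_ofNat, Nat.mod_eq_of_lt (by omega)]
  have h1 := BitVec.add_eq_or_of_and_eq_zero (BitVec.ofNat 17 a) (BitVec.ofNat 17 b) (by
    apply BitVec.eq_of_toNat_eq
    rw [BitVec.toNat_and, ta, tb, h]
    rfl)
  have h2 := congrArg BitVec.toNat h1
  rwa [BitVec.toNat_add, BitVec.toNat_or, ta, tb, Nat.mod_eq_of_lt (by omega)] at h2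

theorem dbl_succ (b h n A : ℕ) : dbl b h (n + 1) A = @Bool.rec (fun _ => ℕ) (dbl b h n A)
    (dbl b h n A + dbl b h n A <<< (1 <<< (b + n))) (Nat.beq ((h >>> n) &&& 1) 0) := rfl

theorem dbl_mul (b h A : ℕ) : ∀ n, A * dbl b h n 1 = dbl b h n A
  | 0 => Nat.mul_one A
  | n + 1 => by
    rw [dbl_succ, dbl_succ, ← dbl_mul b h A n]
    cases Nat.beq ((h >>> n) &&& 1) 0
    · rfl
    · change A * (dbl b h n 1 + dbl b h n 1 <<< (1 <<< (b + n))) =
        A * dbl b h n 1 + (A * dbl b h n 1) <<< (1 <<< (b + n))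
      simp only [Nat.shiftLeft_eq]
      ring

theorem and_one_eq {h n : ℕ} (hb : Nat.beq ((h >>> n) &&& 1) 0 = true) : h.testBit n = false := by
  have h1 : ((h >>> n) &&& 1).testBit 0 = false := by rw [beq_eq hb, Nat.zero_testBit]
  rw [Nat.testBit_and, Nat.testBit_shiftRight, Nat.add_zero] at h1
  have h2 : Nat.testBit 1 0 = true := rfl
  rw [h2, Bool.and_true] at h1
  exact h1

theorem dbl_spec {b h A : ℕ} (hA : A < 2 ^ 2 ^ b) : ∀ n, dbl b h n A < 2 ^ 2 ^ (b + n) ∧
    ∀ y, (dbl b h n A).testBit y = true → A.testBit (y % 2 ^ b) = true ∧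
      ∀ i < n, h.testBit i = true → y.testBit (b + i) = false
  | 0 => ⟨hA, fun y hy => ⟨by
      have hlt : y < 2 ^ b := by
        by_contra hc
        have := Nat.testBit_lt_two_pow (lt_of_lt_of_le hA (Nat.pow_le_pow_right (by norm_num)
          (not_lt.1 hc)))
        have hy' : A.testBit y = true := hy
        rw [this] at hy'
        exact absurd hy' Bool.false_ne_true
      rw [Nat.mod_eq_of_lt hlt]
      exact hy, fun i hi => absurd hi (Nat.not_lt_zero i)⟩⟩
  | n + 1 => by
    obtain ⟨hB, hy⟩ := dbl_spec hA n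
    have e1 : (1 : ℕ) <<< (b + n) = 2 ^ (b + n) := by rw [Nat.shiftLeft_eq, one_mul]
    have hlt : ∀ y, (dbl b h n A).testBit y = true → y < 2 ^ (b + n) := by
      intro y hy
      by_contra hc
      rw [Nat.testBit_lt_two_pow (lt_of_lt_of_le hB (Nat.pow_le_pow_right (by norm_num)
        (not_lt.1 hc)))] at hy
      exact absurd hy Bool.false_ne_true
    have hs : 2 ^ (b + (n + 1)) = 2 ^ (b + n) + 2 ^ (b + n) := by
      rw [← Nat.add_assoc, pow_succ]
      omega
    have low : ∀ y, (dbl b h n A).testBit y = true → A.testBit (y % 2 ^ b) = true ∧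
        ∀ i < n + 1, h.testBit i = true → y.testBit (b + i) = false := by
      intro y hy'
      refine ⟨(hy y hy').1, fun i hi hh => ?_⟩
      rcases Nat.lt_succ_iff_lt_or_eq.1 hi with hi | rfl
      · exact (hy y hy').2 i hi hh
      · exact Nat.testBit_lt_two_pow (hlt y hy')
    rw [dbl_succ]
    rcases hb : Nat.beq ((h >>> n) &&& 1) 0 with _ | _
    · refine ⟨lt_of_lt_of_le hB (Nat.pow_le_pow_right (by norm_num) ?_), low⟩
      exact Nat.pow_le_pow_right (by norm_num) (by omega)
    · change (dbl b h n A + dbl b h n A <<< (1 <<< (b + n))) < 2 ^ 2 ^ (b + (n + 1)) ∧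
        ∀ y, (dbl b h n A + dbl b h n A <<< (1 <<< (b + n))).testBit y = true →
          A.testBit (y % 2 ^ b) = true ∧
          ∀ i < n + 1, h.testBit i = true → y.testBit (b + i) = false
      have hn := and_one_eq hb
      rw [e1, Nat.shiftLeft_eq]
      set B := dbl b h n A with hBdef
      refine ⟨?_, fun y hy' => ?_⟩
      · have hS : 2 ^ 2 ^ (b + (n + 1)) = 2 ^ 2 ^ (b + n) * 2 ^ 2 ^ (b + n) := by
          rw [hs, ← pow_add]
        rw [hS]
        generalize 2 ^ 2 ^ (b + n) = S at hB
        obtain ⟨c, rfl⟩ : ∃ c, S = B + 1 + c := ⟨S - (B + 1), by omega⟩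
        nlinarith [Nat.zero_le (B * c), Nat.zero_le (c * c)]
      · rw [Nat.add_comm, Nat.mul_comm, Nat.testBit_two_pow_mul_add _ hB] at hy'
        by_cases hc : y < 2 ^ (b + n)
        · rw [if_pos hc] at hy'
          exact low y hy'
        · rw [if_neg hc] at hy'
          obtain ⟨z, rfl⟩ : ∃ z, y = 2 ^ (b + n) + z := ⟨y - 2 ^ (b + n), by omega⟩
          rw [Nat.add_sub_cancel_left] at hy'
          have hz := hlt z hy'
          obtain ⟨h1, h2⟩ := hy z hy'
          refine ⟨?_, fun i hi hh => ?_⟩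
          · have h3 : (2 ^ (b + n) + z) % 2 ^ b = z % 2 ^ b := by
              rw [pow_add, Nat.mul_add_mod]
            rw [h3]
            exact h1
          · rcases Nat.lt_succ_iff_lt_or_eq.1 hi with hi | rfl
            · rw [Nat.testBit_two_pow_add_gt (by omega)]
              exact h2 i hi hh
            · rw [hn] at hh
              exact absurd hh Bool.false_ne_true

/-- The numbers below `2 ^ 16` without a bit in `l + 2 ^ 8 * h`. -/
theorem FG_spec {l h z : ℕ} (hz : (F8 l * G8 h).testBit z = true) : z < 2 ^ 16 ∧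
    (∀ i < 8, l.testBit i = true → z.testBit i = false) ∧
    ∀ i < 8, h.testBit i = true → z.testBit (8 + i) = false := by
  have h0 : (1 : ℕ) < 2 ^ 2 ^ 0 := by norm_num
  have e1 : F8 l * G8 h = dbl 8 h 8 (F8 l) := dbl_mul 8 h (F8 l) 8
  obtain ⟨hF, hF2⟩ := dbl_spec (b := 0) (h := l) h0 8
  have hF' : F8 l < 2 ^ 2 ^ 8 := hF
  obtain ⟨hG, hG2⟩ := dbl_spec (b := 8) (h := h) hF' 8
  rw [e1] at hz
  obtain ⟨h3, h4⟩ := hG2 z hz
  refine ⟨?_, fun i hi hl => ?_, h4⟩
  · by_contra hc
    rw [Nat.testBit_lt_two_pow (lt_of_lt_of_le hG (Nat.pow_le_pow_right (by norm_num)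
      (not_lt.1 hc)))] at hz
    exact absurd hz Bool.false_ne_true
  · have h5 := (hF2 (z % 2 ^ 8) h3).2 i hi hl
    rw [Nat.zero_add, Nat.testBit_mod_two_pow, decide_eq_true hi, Bool.true_and] at h5
    exact h5

theorem bmF_eq (g : ℕ) : bmF g = (F8 (ext g &&& 255) * G8 ((ext g >>> 8) &&& 255)) <<<
    (ext g >>> 37) := rfl

/-- **The bitmap of an entry.** -/
theorem bmF_spec {g : ℕ} (hw : WF g) {y : ℕ} (hy : y < 2 ^ 16) (h : (bmF g).testBit y = true) :
    ∀ i < 16, g.testBit (ov lowO i) = true → y.testBit i = g.testBit (37 + ov lowO i) := by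
  rw [bmF_eq, Nat.testBit_shiftLeft, Bool.and_eq_true, decide_eq_true_iff] at h
  obtain ⟨hle, hz⟩ := h
  set v := ext g >>> 37 with hv
  have hvb : ∀ i, v.testBit i = (ext g).testBit (37 + i) := by
    intro i
    rw [hv, Nat.testBit_shiftRight]
  obtain ⟨z, rfl⟩ : ∃ z, y = z + v := ⟨y - v, by omega⟩
  rw [Nat.add_sub_cancel] at hz
  obtain ⟨hz16, hzl, hzh⟩ := FG_spec hz
  have e255 : (255 : ℕ) = 2 ^ 8 - 1 := rfl
  have hz0 : ∀ i < 16, (ext g).testBit i = true → z.testBit i = false := by
    intro i hi hmi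
    by_cases h8 : i < 8
    · refine hzl i h8 ?_
      rw [e255, Nat.testBit_and, hmi, Nat.testBit_two_pow_sub_one, decide_eq_true h8]
      rfl
    · obtain ⟨j, rfl⟩ : ∃ j, i = 8 + j := ⟨i - 8, by omega⟩
      refine hzh j (by omega) ?_
      rw [e255, Nat.testBit_and, Nat.testBit_shiftRight, hmi, Nat.testBit_two_pow_sub_one,
        decide_eq_true (by omega)]
      rfl
  have hlow : ∀ i < 16, ov lowO i < 37 := by decide +kernel
  -- values at low signs are at signs of the mask
  have hvm : ∀ i < 16, v.testBit i = true → (ext g).testBit i = true := by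
    intro i hi hvi
    rw [hvb, ext_val g i hi] at hvi
    rw [ext_mask g i hi]
    have h1 : (gV g).testBit (ov lowO i) = true := by
      rw [tb_gV, hvi, decide_eq_true (hlow i hi)]
      rfl
    have h2 : (gV g &&& gM g).testBit (ov lowO i) = true := by
      have hw' : gV g &&& gM g = gV g := hw
      rw [hw']
      exact h1
    rw [Nat.testBit_and, Bool.and_eq_true, tb_gM, Bool.and_eq_true] at h2
    exact h2.2.1
  have hv16 : v < 2 ^ 16 := by omega
  have hand : z &&& v = 0 := by
    apply Nat.eq_of_testBit_eq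
    intro i
    rw [Nat.testBit_and, Nat.zero_testBit]
    by_cases hi : i < 16
    · rcases hvi : v.testBit i with _ | _
      · rw [Bool.and_false]
      · rw [hz0 i hi (hvm i hi hvi), Bool.false_and]
    · rw [Nat.testBit_lt_two_pow (lt_of_lt_of_le hv16 (Nat.pow_le_pow_right (by norm_num)
        (by omega : 16 ≤ i))), Bool.and_false]
  intro i hi hgi
  rw [add_or hz16 hv16 hand, Nat.testBit_or, hvb, ext_val g i hi]
  rw [hz0 i hi, Bool.false_or]
  rw [ext_mask g i hi]
  exact hgi

variable {O : ℕ}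

section

variable {x y : ℕ} {E : ℕ → Prop} {P : Prop}

/-- The pattern `x` (low signs `y`) is in the tree. -/
def Hit (O x y : ℕ) : BT → ℕ → Prop
  | BT.e, _ => False
  | BT.n a _ _ _, 0 => a.testBit y = true
  | BT.n a f z w, k + 1 => a.testBit y = true ∨ Hit O x y f k ∨
      (x.testBit (ov O (16 + k)) = false ∧ Hit O x y z k) ∨
      (x.testBit (ov O (16 + k)) = true ∧ Hit O x y w k)

theorem uni_hit : ∀ (s t : BT) (k : ℕ), Hit O x y (uni s t) k → Hit O x y s k ∨ Hit O x y t k
  | BT.e, t, k, h => Or.inr h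
  | BT.n a f z w, BT.e, k, h => Or.inl h
  | BT.n a f z w, BT.n b f' z' w', 0, h => by
    have h' : (a ||| b).testBit y = true := h
    rw [Nat.testBit_or, Bool.or_eq_true] at h'
    exact h'
  | BT.n a f z w, BT.n b f' z' w', k + 1, h => by
    have h' : (a ||| b).testBit y = true ∨ Hit O x y (uni f f') k ∨
      (x.testBit (ov O (16 + k)) = false ∧ Hit O x y (uni z z') k) ∨
      (x.testBit (ov O (16 + k)) = true ∧ Hit O x y (uni w w') k) := h
    rw [Nat.testBit_or, Bool.or_eq_true] at h'
    rcases h' with (h' | h') | h' | ⟨hx, h'⟩ | ⟨hx, h'⟩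
    · exact Or.inl (Or.inl h')
    · exact Or.inr (Or.inl h')
    · rcases uni_hit f f' k h' with h' | h'
      · exact Or.inl (Or.inr (Or.inl h'))
      · exact Or.inr (Or.inr (Or.inl h'))
    · rcases uni_hit z z' k h' with h' | h'
      · exact Or.inl (Or.inr (Or.inr (Or.inl ⟨hx, h'⟩)))
      · exact Or.inr (Or.inr (Or.inr (Or.inl ⟨hx, h'⟩)))
    · rcases uni_hit w w' k h' with h' | h'
      · exact Or.inl (Or.inr (Or.inr (Or.inr ⟨hx, h'⟩)))
      · exact Or.inr (Or.inr (Or.inr (Or.inr ⟨hx, h'⟩)))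

theorem cvT_spec (hy16 : y < 2 ^ 16) : ∀ (n : ℕ) (t : BT) (acc : ℕ), cvT n t acc = true →
    acc.testBit y = true ∨ Hit O x y t n
  | 0, BT.e, acc, h => by
    have h' : Nat.beq acc full = true := h
    left
    rw [beq_eq h']
    exact full_bit hy16
  | 0, BT.n a f z w, acc, h => by
    have h' : Nat.beq (acc ||| a) full = true := h
    have h2 : (acc ||| a).testBit y = true := by
      rw [beq_eq h']
      exact full_bit hy16
    rw [Nat.testBit_or, Bool.or_eq_true] at h2
    exact h2
  | k + 1, BT.e, acc, h => by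
    have h' : Nat.beq acc full = true := h
    left
    rw [beq_eq h']
    exact full_bit hy16
  | k + 1, BT.n a f z w, acc, h => by
    have h' : @Bool.rec (fun _ => Bool)
      (band (cvT k (uni f z) (acc ||| a)) (cvT k (uni f w) (acc ||| a))) true
      (Nat.beq (acc ||| a) full) = true := h
    have key : (acc ||| a).testBit y = true → acc.testBit y = true ∨
        Hit O x y (BT.n a f z w) (k + 1) := by
      intro h2
      rw [Nat.testBit_or, Bool.or_eq_true] at h2
      exact h2.imp id Or.inl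
    rcases hb : Nat.beq (acc ||| a) full with _ | _
    · rw [hb] at h'
      obtain ⟨h0, h1⟩ := band_and h'
      rcases hx : x.testBit (ov O (16 + k)) with _ | _
      · rcases cvT_spec hy16 k _ _ h0 with h2 | h2
        · exact key h2
        · right
          rcases uni_hit f z k h2 with h2 | h2
          · exact Or.inr (Or.inl h2)
          · exact Or.inr (Or.inr (Or.inl ⟨hx, h2⟩))
      · rcases cvT_spec hy16 k _ _ h1 with h2 | h2
        · exact key h2
        · right
          rcases uni_hit f w k h2 with h2 | h2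
          · exact Or.inr (Or.inl h2)
          · exact Or.inr (Or.inr (Or.inr ⟨hx, h2⟩))
    · refine key ?_
      rw [beq_eq hb]
      exact full_bit hy16

/-- Bits at `u`. -/
theorem kB_zero {g u : ℕ} (h : Nat.beq (Nat.land g (kB u)) 0 = true) : g.testBit u = false := by
  have hc : g &&& kB u = 0 := beq_eq h
  have h3 : (g &&& kB u).testBit u = false := by rw [hc, Nat.zero_testBit]
  rw [Nat.testBit_and, tb_kB, decide_eq_true rfl, Bool.true_or, Bool.and_true] at h3
  exact h3

theorem kB_kM {g u : ℕ} (h : Nat.beq (Nat.land g (kB u)) (kM u) = true) :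
    g.testBit (37 + u) = false := by
  have hc : g &&& kB u = kM u := beq_eq h
  have h3 : (g &&& kB u).testBit (37 + u) = (kM u).testBit (37 + u) := by rw [hc]
  rw [Nat.testBit_and, tb_kB, tb_kM, decide_eq_true (rfl : 37 + u = 37 + u), Bool.or_true,
    Bool.and_true, decide_eq_false (by omega)] at h3
  exact h3

variable {G : Prop} {u H : ℕ}

/-- Entries of the list under the condition `G`. -/
def KL (O x : ℕ) (E : ℕ → Prop) (H : ℕ) (G : Prop) (L : CL) : Prop :=
  All (fun g => G → Keep O x E H g) L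

theorem leaf {g : ℕ} (hy16 : y < 2 ^ 16) (hO : ∀ i < 16, ov O i = ov lowO i)
    (hy : ∀ i < 16, y.testBit i = x.testBit (ov O i))
    (hP : ∀ g, E g → x &&& gM g = gV g → P) (hg : Keep O x E H g)
    (hb : Nat.beq (Nat.land g H) 0 = true) (hz : (bmF g).testBit y = true) : P := by
  obtain ⟨hE, hw, hc⟩ := hg
  refine hP g hE (hit_of hw fun v hv hgv => ?_)
  rcases hc v hv hgv with h1 | ⟨i, hi, rfl⟩ | h1
  · exfalso
    have e : g &&& H = 0 := beq_eq hb
    have h2 : (g &&& H).testBit v = false := by rw [e, Nat.zero_testBit]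
    rw [Nat.testBit_and, hgv, h1] at h2
    exact Bool.noConfusion h2
  · rw [← hy i hi]
    rw [hO i hi] at hgv ⊢
    exact bmF_spec hw hy16 hz i hi hgv
  · exact h1

/-- **Distribution of a list.** The sign `u` is in `H'`, and `H` is `H'` without `u`. -/
theorem part_spec {H' : ℕ} {Q : Prop} (hy16 : y < 2 ^ 16)
    (hO : ∀ i < 16, ov O i = ov lowO i) (hy : ∀ i < 16, y.testBit i = x.testBit (ov O i))
    (hP : ∀ g, E g → x &&& gM g = gV g → P)
    (hH : ∀ v, H'.testBit v = true → H.testBit v = true ∨ u = v)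
    {k : ℕ → CL → CL → CL → Bool}
    (hk : ∀ a F Z W, (G → a.testBit y = true → P) → KL O x E H G F →
      KL O x E H (G ∧ x.testBit u = false) Z → KL O x E H (G ∧ x.testBit u = true) W →
      k a F Z W = true → Q) :
    ∀ (L : CL) (a : ℕ) (F Z W : CL), KL O x E H' G L → (G → a.testBit y = true → P) →
      KL O x E H G F → KL O x E H (G ∧ x.testBit u = false) Z →
      KL O x E H (G ∧ x.testBit u = true) W → part u H' k L a F Z W = true → Q
  | CL.nil, a, F, Z, W, _, ha, hF, hZ, hW, h => hk a F Z W ha hF hZ hW h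
  | CL.cons g L, a, F, Z, W, hL, ha, hF, hZ, hW, h => by
    have h' : @Bool.rec (fun _ => Bool)
      (@Bool.rec (fun _ => Bool)
        (@Bool.rec (fun _ => Bool) (part u H' k L a F Z (CL.cons g W))
          (part u H' k L a F (CL.cons g Z) W) (Nat.beq (Nat.land g (kB u)) (kM u)))
        (part u H' k L a (CL.cons g F) Z W) (Nat.beq (Nat.land g (kB u)) 0))
      (part u H' k L (a ||| bmF g) F Z W) (Nat.beq (Nat.land g H') 0) = true := h
    rcases hb : Nat.beq (Nat.land g H') 0 with _ | _
    · rw [hb] at h'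
      have hcomp : ∀ {C : Prop}, (C → G) → (C → g.testBit u = true → x.testBit u = g.testBit (37 + u)) →
          C → Keep O x E H g := by
        intro C hC hu c
        obtain ⟨hE, hw, hc⟩ := hL.1 (hC c)
        refine ⟨hE, hw, fun v hv hgv => ?_⟩
        rcases hc v hv hgv with h2 | h2 | h2
        · rcases hH v h2 with h3 | rfl
          · exact Or.inl h3
          · exact Or.inr (Or.inr (hu c hgv))
        · exact Or.inr (Or.inl h2)
        · exact Or.inr (Or.inr h2)
      rcases h0 : Nat.beq (Nat.land g (kB u)) 0 with _ | _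
      · rw [h0] at h'
        rcases h1 : Nat.beq (Nat.land g (kB u)) (kM u) with _ | _
        · rw [h1] at h'
          refine part_spec hy16 hO hy hP hH hk L a F Z (CL.cons g W) hL.2 ha hF hZ ⟨?_, hW⟩ h'
          refine hcomp (fun c => c.1) fun c hgu => ?_
          rw [c.2, t1_false h1 hgu]
        · rw [h1] at h'
          refine part_spec hy16 hO hy hP hH hk L a F (CL.cons g Z) W hL.2 ha hF ⟨?_, hZ⟩ hW h'
          refine hcomp (fun c => c.1) fun c _ => ?_
          rw [c.2, kB_kM h1]
      · rw [h0] at h'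
        refine part_spec hy16 hO hy hP hH hk L a (CL.cons g F) Z W hL.2 ha ⟨?_, hF⟩ hZ hW h'
        refine hcomp id fun _ hgu => ?_
        rw [kB_zero h0] at hgu
        exact absurd hgu Bool.false_ne_true
    · rw [hb] at h'
      refine part_spec hy16 hO hy hP hH hk L _ F Z W hL.2 ?_ hF hZ hW h'
      intro hG hz
      rw [Nat.testBit_or, Bool.or_eq_true] at hz
      rcases hz with hz | hz
      · exact ha hG hz
      · exact leaf hy16 hO hy hP (hL.1 hG) hb hz

/-- A continuation of the tree construction. -/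
theorem mkC_spec {n : ℕ} {m : CL → ℕ → (BT → Bool) → Bool} {Q : Prop}
    (hm : ∀ (L : CL) (k : BT → Bool), KL O x E H G L →
      (∀ t, (G → Hit O x y t n → P) → k t = true → Q) → m L 0 k = true → Q) {L : CL}
    {k : BT → Bool} (hL : KL O x E H G L)
    (hk : ∀ t, (G → Hit O x y t n → P) → k t = true → Q) (h : mkC m L k = true) : Q := by
  cases L with
  | nil => exact hk BT.e (fun _ h => h.elim) h
  | cons g L => exact hm (CL.cons g L) k hL hk h

theorem mk_spec (hy16 : y < 2 ^ 16) (hO : ∀ i < 16, ov O i = ov lowO i)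
    (hy : ∀ i < 16, y.testBit i = x.testBit (ov O i))
    (hP : ∀ g, E g → x &&& gM g = gV g → P) {Q : Prop} :
    ∀ (n : ℕ) {G : Prop} (L : CL) (acc : ℕ) (k : BT → Bool), KL O x E (msk O 16 n) G L →
      (G → acc.testBit y = true → P) →
      (∀ t, (G → Hit O x y t n → P) → k t = true → Q) → mk O n L acc k = true → Q
  | 0, G, L, acc, k, hL, ha, hk, h => by
    have h' : part 0 0 (fun a _ _ _ => k (BT.n a BT.e BT.e BT.e)) L acc CL.nil CL.nil CL.nil =
      true := h
    exact part_spec (H := 0) hy16 hO hy hP (fun v hv => Or.inl hv)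
      (fun a F Z W ha' _ _ _ h2 => hk (BT.n a BT.e BT.e BT.e) (fun hG hh => ha' hG hh) h2) L acc CL.nil CL.nil CL.nil
      hL ha trivial trivial trivial h'
  | n + 1, G, L, acc, k, hL, ha, hk, h => by
    have h' : part (ov O (16 + n)) (msk O 16 (n + 1))
      (fun a F Z W => mkC (mk O n) F fun f => mkC (mk O n) Z fun z => mkC (mk O n) W fun w =>
        k (BT.n a f z w)) L acc CL.nil CL.nil CL.nil = true := h
    refine part_spec (H := msk O 16 n) hy16 hO hy hP (fun v hv => ?_) (fun a F Z W ha' hF hZ hW h2 => ?_)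
      L acc CL.nil CL.nil CL.nil hL ha trivial trivial trivial h'
    · rw [msk_succ, Nat.testBit_or, Bool.or_eq_true, tb_kM, decide_eq_true_iff] at hv
      exact hv
    · have hm : ∀ {G' : Prop} (L : CL) (k : BT → Bool), KL O x E (msk O 16 n) G' L →
          (∀ t, (G' → Hit O x y t n → P) → k t = true → Q) → mk O n L 0 k = true → Q :=
        fun L k hL hk h => mk_spec hy16 hO hy hP n L 0 k hL
          (fun _ h0 => by rw [Nat.zero_testBit] at h0; exact absurd h0 Bool.false_ne_true) hk h
      refine mkC_spec (n := n) hm hF (fun f hf h3 => ?_) h2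
      refine mkC_spec (n := n) hm hZ (fun z hz h4 => ?_) h3
      refine mkC_spec (n := n) hm hW (fun w hw h5 => ?_) h4
      refine hk _ (fun hG hh => ?_) h5
      rcases hh with hh | hh | ⟨hx, hh⟩ | ⟨hx, hh⟩
      · exact ha' hG hh
      · exact hf hG hh
      · exact hz ⟨hG, hx⟩ hh
      · exact hw ⟨hG, hx⟩ hh

/-- **A cube covered by a list.** -/
theorem topT_spec {n Xm X : ℕ} {L : CL} (hL : All E L) (hx : x &&& Xm = X)
    (h : topT O n Xm X L = true) : ∃ g, E g ∧ x &&& gM g = gV g := by
  obtain ⟨h1, h2⟩ := band_and h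
  obtain ⟨h0, h1⟩ := band_and h1
  have hO : ∀ i < 16, ov O i = ov lowO i := fun i hi => lowO_ov (beq_eq h0) hi
  have h1' : (Xm ||| msk O 16 n) ||| msk O 0 16 = 2 ^ 37 - 1 := beq_eq h1
  have hy : ∀ i < 16, (Nat.ofBits fun i : Fin 16 => x.testBit (ov O i)).testBit i =
      x.testBit (ov O i) := fun i hi => by rw [Nat.testBit_ofBits_lt _ _ hi]
  have hy16 : (Nat.ofBits fun i : Fin 16 => x.testBit (ov O i)) < 2 ^ 16 :=
    Nat.ofBits_lt_two_pow _
  refine flt_spec (P := ∃ g, E g ∧ x &&& gM g = gV g) (E := E) hy (fun g hE hg => ⟨g, hE, hg⟩)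
    (fun R acc hR ha hk => ?_) L 0 CL.nil ?_ ?_ trivial h2
  · refine mk_spec (P := ∃ g, E g ∧ x &&& gM g = gV g) (E := E) (G := True) hy16 hO hy
      (fun g hE hg => ⟨g, hE, hg⟩) n R acc _ (hR.imp fun g hg _ => hg) (fun _ => ha)
      (fun t ht hc => ?_) hk
    rcases cvT_spec (O := O) (x := x) hy16 n t 0 hc with h0 | h0
    · rw [Nat.zero_testBit] at h0
      exact absurd h0 Bool.false_ne_true
    · exact ht trivial h0
  · refine hL.imp fun g hE => ⟨hE, fun ht => ?_⟩
    obtain ⟨hw, hc⟩ := tI_false ht hx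
    refine ⟨hw, fun u hu hg => ?_⟩
    have h3 : ((Xm ||| msk O 16 n) ||| msk O 0 16).testBit u = true := by
      rw [h1', Nat.testBit_two_pow_sub_one, decide_eq_true_iff]
      exact hu
    rw [Nat.testBit_or, Nat.testBit_or, Bool.or_eq_true, Bool.or_eq_true] at h3
    rcases h3 with (h3 | h3) | h3
    · exact Or.inr (Or.inr (hc u hu h3 hg))
    · exact Or.inl h3
    · obtain ⟨i, hi, e⟩ := msk_bit 0 u 16 h3
      exact Or.inr (Or.inl ⟨i, hi, by rw [← e, Nat.zero_add]⟩)
  · intro h0
    rw [Nat.zero_testBit] at h0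
    exact absurd h0 Bool.false_ne_true

end

end Pool.Agent.H27.Z12.BM
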