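import Mathlib
import Pool.Agent.H27.Z12.BMEx
import Pool.Agent.H27.Z12.BT

/-!
Cubes of sign patterns covered by excluded cubes, tree form (MP_1e71f9_co).
-/

set_option autoImplicit false

namespace Pool.Agent.H27.Z12.BM

open Pool.Agent.H77.Z12 Pool.Agent.H28.Z12

variable {O : ℕ}

/-- **A cube covered by excluded entries is excluded.** -/
theorem ex_of_topT {R : St36 → ℕ} {Q : ℕ → ℕ} {n Xm X : ℕ} {L : CL}
    (hQ : OKQ R Q) (hL : AllQ Q L) (h : topT O n Xm X L = true) : Ex R Xm X := by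
  intro M hb hM hx hr ha
  obtain ⟨g, ⟨i, rfl⟩, hg⟩ := topT_spec hL ha h
  exact hQ i M hb hM hx hr hg

/-- The same cube, written as an entry of a table. -/
theorem tx_of {R : St36 → ℕ} {T i Xm X : ℕ} (h : Ex R Xm X)
    (hb : band (Nat.beq (nM T i) Xm) (Nat.beq (nV T i) X) = true) : Ex R (nM T i) (nV T i) := by
  obtain ⟨h1, h2⟩ := band_and hb
  rw [beq_eq h1, beq_eq h2]
  exact h

end Pool.Agent.H27.Z12.BM
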