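import Pool.Agent.H28.Z12.PCovDefs

/-!
Kernel evaluation of a cover of the 6 x 6 sign matrices up to permutations of the rows and
columns and complements (MP_1e71f9_co). Only matrices with at most 18 ones and rows sorted by
the number of ones are listed.
-/

set_option autoImplicit false

namespace Pool.Agent.H27.Z12.CT

open Pool.Agent.H28.Z12.Cov

/-- The argument is evaluated. -/
noncomputable def fo (F : Nat → Bool) (X : Nat) : Bool :=
  @Nat.rec (fun _ => Bool) false (fun g _ => F g) (Nat.succ X)

/-- Numbers of ones of the numbers below 64, three bits each. -/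
def PT : Nat := nat_lit 0xd6cb23b238dab238da8da691b238da8da6918da691691448

/-- Number of ones of a number below 64. -/
def pc6 (x : Nat) : Nat := Nat.land (Nat.shiftRight PT (Nat.mul (nat_lit 3) x)) (nat_lit 7)

/-- Row `k` of `A`. -/
def rw6 (A k : Nat) : Nat := Nat.land (Nat.shiftRight A (Nat.mul (nat_lit 6) k)) (nat_lit 63)

/-- Number of ones of `A`. -/
def pcs (A : Nat) : Nat :=
  Nat.add (Nat.add (Nat.add (pc6 (rw6 A (nat_lit 0))) (pc6 (rw6 A (nat_lit 1))))
    (Nat.add (pc6 (rw6 A (nat_lit 2))) (pc6 (rw6 A (nat_lit 3)))))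
    (Nat.add (pc6 (rw6 A (nat_lit 4))) (pc6 (rw6 A (nat_lit 5))))

/-- The simplest excluded patterns, 80 bits each: constant rows and columns, two equal rows with
2, 3 or 4 ones. -/
def TP : Nat := nat_lit 0x79e000000fff0000000038e000000fff00000000186000000fff00000000000041041041000820820820410410410000000000000000003f0000000007e00000003f

/-- `Y` is the entry `i` of `L`. -/
noncomputable def nxE (L : Nat → Nat) (nL m Y i : Nat) : Bool :=
  band (Nat.ble (Nat.succ i) nL) (Nat.beq (Nat.land Y m) (L i))

/-- `Y` satisfies the simple pattern `i`. -/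
noncomputable def trE (m Y i : Nat) : Bool :=
  band (Nat.ble (Nat.succ i) (nat_lit 7))
    (band (Nat.beq (Nat.land (ngM TP i) m) (ngM TP i)) (Nat.beq (Nat.land Y (ngM TP i)) (ngV TP i)))

/-- The permuted matrix is in the next list or satisfies a simple pattern. -/
noncomputable def stY (L : Nat → Nat) (nL m Y c : Nat) : Bool :=
  sel (Nat.land (Nat.shiftRight c (nat_lit 20)) (nat_lit 1))
    (nxE L nL m Y (Nat.shiftRight c (nat_lit 22))) (trE m Y (Nat.shiftRight c (nat_lit 22)))

/-- Evaluate the matrix permuted by `p` and `q`. -/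
noncomputable def foA (F : Nat → Bool) (p q X : Nat) : Bool :=
  fo (fun D => fo (fun Y => fo (fun E => F (rperm E Y)) (dig q)) (cperm D X)) (dig p)

/-- A permuted matrix. -/
noncomputable def stP (L : Nat → Nat) (nL m F X c : Nat) : Bool :=
  band (band (Nat.ble (Nat.succ (Nat.land c (nat_lit 1023))) (nat_lit 720))
      (Nat.ble (Nat.succ (Nat.land (Nat.shiftRight c (nat_lit 10)) (nat_lit 1023))) F))
    (foA (fun Y => stY L nL m Y c) (Nat.land c (nat_lit 1023))
      (Nat.land (Nat.shiftRight c (nat_lit 10)) (nat_lit 1023)) X)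

/-- The row `r` has too few or too many ones. -/
noncomputable def stN (u A r c : Nat) : Bool :=
  sel (Nat.land (Nat.shiftRight c (nat_lit 20)) (nat_lit 1))
    (Nat.ble (Nat.succ (pc6 r)) (pc6 (rw6 A (Nat.shiftRight c (nat_lit 22)))))
    (Nat.ble (nat_lit 19) (Nat.add (pcs A) (Nat.mul u (pc6 r))))

/-- One entry of a step: `A` a matrix with `t` rows, `r` the next row, `s = 6 t`, `u = 6 - t`,
`m = 2 ^ (6 (t + 1)) - 1`, `F = (t + 1)!`, `c` the certificate: `p, q` (10 bits each), 2 bits
for the kind, index. -/
noncomputable def stE (L : Nat → Nat) (nL m F s u A r c : Nat) : Bool :=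
  sel (Nat.land (Nat.shiftRight c (nat_lit 21)) (nat_lit 1))
    (fo (fun X => stP L nL m F X c) (Nat.lor A (Nat.shiftLeft r s))) (stN u A r c)

/-- Certificate `r` of `C`, 40 bits. -/
def c40 (C r : Nat) : Nat :=
  Nat.land (Nat.shiftRight C (Nat.mul (nat_lit 40) r)) (nat_lit 1099511627775)

/-- All rows `r < n` after the matrix `A`. -/
noncomputable def stA (L : Nat → Nat) (nL m F s u A C : Nat) (n : Nat) : Bool :=
  @Nat.rec (fun _ => Bool) true (fun r ih => band ih
    (fo (fun c => stE L nL m F s u A r c) (c40 C r))) n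

/-- The matrices `a, .., a + n - 1` of the table `K`. -/
noncomputable def st (K L : Nat → Nat) (nL m F s u a C : Nat) (n : Nat) : Bool :=
  @Nat.rec (fun _ => Bool) true (fun i ih => band ih
    (fo (fun A => fo (fun C' => stA L nL m F s u A C' (nat_lit 64))
      (Nat.land (Nat.shiftRight C (Nat.mul (nat_lit 2560) i)) m2560)) (K (Nat.add a i)))) n

/-- The pattern `g` is satisfied by `Y`. -/
noncomputable def mtE (g Y : Nat) : Bool := Nat.beq (Nat.land Y (gM g)) (gV g)

/-- The complement of the pattern `g` is satisfied by `Y`. -/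
noncomputable def mtN (g Y : Nat) : Bool := Nat.beq (Nat.land Y (gM g)) (Nat.xor (gV g) (gM g))

/-- One certificate of a full matrix `X` with sign `d`: `p, q` (10 bits each), one bit for the
complement, number of an entry of `Q`. Complements are used below `2 ^ 18`. -/
noncomputable def clE (Q : Nat → Nat) (X d c : Nat) : Bool :=
  band (band (Nat.ble (Nat.succ (Nat.land c (nat_lit 1023))) (nat_lit 720))
      (Nat.ble (Nat.succ (Nat.land (Nat.shiftRight c (nat_lit 10)) (nat_lit 1023))) (nat_lit 720)))
    (foA (fun Y => fo (fun Z => fo (fun i =>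
          sel (Nat.land (Nat.shiftRight c (nat_lit 20)) (nat_lit 1))
            (fo (fun g => mtE g Z) (Q i))
            (band (Nat.ble (Nat.succ i) (nat_lit 262144)) (fo (fun g => mtN g Z) (Q i))))
          (Nat.shiftRight c (nat_lit 21)))
        (Nat.lor Y (Nat.shiftLeft (Nat.xor d (Nat.xor (pr (Nat.land c (nat_lit 1023)))
          (pr (Nat.land (Nat.shiftRight c (nat_lit 10)) (nat_lit 1023))))) (nat_lit 36))))
      (Nat.land c (nat_lit 1023)) (Nat.land (Nat.shiftRight c (nat_lit 10)) (nat_lit 1023)) X)

/-- The complement of a full matrix. -/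
def cpl (X : Nat) : Nat := Nat.xor X (nat_lit 68719476735)

/-- The matrix `X` and its complement with both signs. -/
noncomputable def clK (Q : Nat → Nat) (X C : Nat) : Bool :=
  band (band (fo (fun c => clE Q X (nat_lit 0) c) (c40 C (nat_lit 0)))
      (fo (fun c => clE Q X (nat_lit 1) c) (c40 C (nat_lit 1))))
    (fo (fun X' => band (fo (fun c => clE Q X' (nat_lit 0) c) (c40 C (nat_lit 2)))
      (fo (fun c => clE Q X' (nat_lit 1) c) (c40 C (nat_lit 3)))) (cpl X))

/-- The matrices `a, .., a + n - 1` of the table `K`. -/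
noncomputable def cls (K Q : Nat → Nat) (a C : Nat) (n : Nat) : Bool :=
  @Nat.rec (fun _ => Bool) true (fun i ih => band ih
    (fo (fun X => fo (fun C' => clK Q X C')
      (Nat.land (Nat.shiftRight C (Nat.mul (nat_lit 160) i))
        (nat_lit 1461501637330902918203684832716283019655932542975))) (K (Nat.add a i)))) n

/-- One of two by bit `b` of `j`. -/
noncomputable def sl (b j x y : Nat) : Nat :=
  @Nat.rec (fun _ => Nat) x (fun _ _ => y) (Nat.land (Nat.shiftRight j b) (nat_lit 1))

/-- Entry `i` of a table in segments of 1024 entries of 40 bits. -/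
noncomputable def e40 (T : Nat → Nat) (i : Nat) : Nat :=
  Nat.land (Nat.shiftRight (T (Nat.shiftRight i (nat_lit 10)))
    (Nat.mul (nat_lit 40) (Nat.land i (nat_lit 1023)))) (nat_lit 1099511627775)

/-- Entry `i` of a table in segments of 256 entries of 80 bits. -/
noncomputable def e80 (T : Nat → Nat) (i : Nat) : Nat :=
  Nat.land (Nat.shiftRight (T (Nat.shiftRight i (nat_lit 8)))
    (Nat.mul (nat_lit 80) (Nat.land i (nat_lit 255)))) (nat_lit 1208925819614629174706175)

end Pool.Agent.H27.Z12.CT
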