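import Mathlib
import Pool.Agent.H27.Z12.CTDefs
import Pool.Agent.H28.Z12.PCov

/-!
Soundness of the kernel evaluation of a cover of the 6 x 6 sign matrices up to permutations and
complements (MP_1e71f9_co).
-/

set_option autoImplicit false

namespace Pool.Agent.H27.Z12.CT

open Pool.Agent.H77.Z12 Pool.Agent.H28.Z12 Pool.Agent.H28.Z12.Cov

theorem fo_eq (F : ℕ → Bool) (X : ℕ) : fo F X = F X := rfl

theorem foA_eq (F : ℕ → Bool) (p q X : ℕ) : foA F p q X = F (act p q X) := rfl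

/-! ### Numbers of ones -/

/-- Number of ones in row `k`. -/
def rc (s : St36) (k : Fin 6) : ℕ := ∑ j : Fin 6, (s.1 k j).toNat

theorem rc_act (ρ γ : Equiv.Perm (Fin 6)) (s : St36) (k : Fin 6) :
    rc (actS ρ γ s) k = rc s (γ k) :=
  Equiv.sum_comp ρ fun j => (s.1 (γ k) j).toNat

theorem sum_rc_act (ρ γ : Equiv.Perm (Fin 6)) (s : St36) :
    ∑ k, rc (actS ρ γ s) k = ∑ k, rc s k := by
  simp only [rc_act]
  exact Equiv.sum_comp γ fun k => rc s k

theorem pc6_eq : ∀ x < 64, pc6 x = (x.testBit 0).toNat + (x.testBit 1).toNat +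
    (x.testBit 2).toNat + (x.testBit 3).toNat + (x.testBit 4).toNat + (x.testBit 5).toNat := by
  decide +kernel

theorem rowN_lt (s : St36) (t : Fin 6) : rowN s t < 64 := by
  have : rowN s t < 2 ^ 6 := Nat.ofBits_lt_two_pow _
  exact this

theorem rowN_tb (s : St36) (t j : Fin 6) : (rowN s t).testBit j = s.1 t j := by
  rw [rowN, Nat.testBit_ofBits_lt _ _ j.2]

theorem pc6_row (s : St36) (t : Fin 6) : pc6 (rowN s t) = rc s t := by
  have h := rowN_tb s t
  rw [pc6_eq _ (rowN_lt s t), rc, Fin.sum_univ_six, ← h 0, ← h 1, ← h 2, ← h 3, ← h 4, ← h 5]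
  rfl

theorem rw6_tb (A k i : ℕ) : (rw6 A k).testBit i = (A.testBit (6 * k + i) && decide (i < 6)) := by
  have e : rw6 A k = (A >>> (6 * k)) &&& 63 := rfl
  rw [e, Nat.testBit_and, Nat.testBit_shiftRight, tb_63]

theorem rw6_row (t : ℕ) (s : St36) (k : Fin 6) (hk : (k : ℕ) < t) :
    rw6 (pk t s) k = rowN s k := by
  apply Nat.eq_of_testBit_eq
  intro i
  rw [rw6_tb]
  by_cases h : i < 6
  · rw [decide_eq_true h, Bool.and_true]
    have h1 := pk_val t s k ⟨i, h⟩ hk
    have h2 := rowN_tb s k ⟨i, h⟩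
    rw [← h2] at h1
    exact h1
  · rw [decide_eq_false h, Bool.and_false]
    symm
    apply Nat.testBit_lt_two_pow
    exact lt_of_lt_of_le (rowN_lt s k) (Nat.pow_le_pow_right (n := 2) (i := 6) (by norm_num)
      (not_lt.1 h))

theorem rw6_zero (t : ℕ) (s : St36) (k : ℕ) (hk : t ≤ k) : rw6 (pk t s) k = 0 := by
  apply Nat.eq_of_testBit_eq
  intro i
  rw [rw6_tb, pk_tb, Nat.zero_testBit]
  by_cases h : i < 6
  · rw [decide_eq_false (by omega : ¬ 6 * k + i < 6 * t), Bool.false_and, Bool.false_and]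
  · rw [decide_eq_false h, Bool.and_false]

theorem pc6_rw (t : ℕ) (s : St36) (k : Fin 6) :
    pc6 (rw6 (pk t s) k) = if (k : ℕ) < t then rc s k else 0 := by
  by_cases h : (k : ℕ) < t
  · rw [if_pos h, rw6_row t s k h, pc6_row]
  · rw [if_neg h, rw6_zero t s k (not_lt.1 h)]
    decide

theorem pcs_pk (t : ℕ) (s : St36) :
    pcs (pk t s) = ∑ k : Fin 6, if (k : ℕ) < t then rc s k else 0 := by
  rw [Fin.sum_univ_six, ← pc6_rw, ← pc6_rw, ← pc6_rw, ← pc6_rw, ← pc6_rw, ← pc6_rw]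
  have e : ∀ a b c d e f : ℕ, ((a + b) + (c + d)) + (e + f) = a + b + c + d + e + f := by
    intros; ring
  exact e _ _ _ _ _ _

/-- The rows from `t` on have at least as many ones as the rows before. -/
def Srt (t : ℕ) (s : St36) : Prop := ∀ k l : Fin 6, k ≤ l → t ≤ (l : ℕ) → rc s k ≤ rc s l

theorem sum_ge {s : St36} (t : Fin 6) (h : Srt t s) :
    pcs (pk t s) + (6 - (t : ℕ)) * rc s t ≤ ∑ k, rc s k := by
  have e : (6 - (t : ℕ)) * rc s t = ∑ k : Fin 6, if (k : ℕ) < t then 0 else rc s t := by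
    rw [Fin.sum_univ_six]
    fin_cases t <;> simp <;> ring
  rw [pcs_pk, e, ← Finset.sum_add_distrib]
  apply Finset.sum_le_sum
  intro k _
  by_cases hk : (k : ℕ) < t
  · rw [if_pos hk, if_pos hk, add_zero]
  · rw [if_neg hk, if_neg hk, zero_add]
    exact h t k (Fin.le_def.2 (not_lt.1 hk)) (not_lt.1 hk)

/-! ### Reading the checks -/

/-- A simple pattern is satisfied by an image of the state. -/
def THit (s : St36) : Prop :=
  ∃ ρ γ : Equiv.Perm (Fin 6), ∃ i < 7, Sat (ngM TP i) (ngV TP i) (actS ρ γ s)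

theorem THit.of_act {ρ γ : Equiv.Perm (Fin 6)} {s : St36} (h : THit (actS ρ γ s)) : THit s := by
  obtain ⟨ρ', γ', i, hi, h⟩ := h
  rw [act_act] at h
  exact ⟨_, _, i, hi, h⟩

/-- The matrix `A` with the next row `r` is equivalent to an entry of `L`, satisfies a simple
pattern, is not sorted or has too many ones. -/
def StOK (L : ℕ → ℕ) (nL m F s A r u : ℕ) : Prop :=
  (∃ p < 720, ∃ q < F, (∃ i < nL, act p q (A ||| r <<< s) &&& m = L i) ∨
    (∃ i < 7, ngM TP i &&& m = ngM TP i ∧ act p q (A ||| r <<< s) &&& ngM TP i = ngV TP i)) ∨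
  (∃ k, pc6 r < pc6 (rw6 A k)) ∨ 19 ≤ pcs A + u * pc6 r

theorem sel_cases {f : ℕ} {a b : Bool} (h : sel f a b = true) : a = true ∨ b = true := by
  by_cases hf : f = 0
  · subst hf
    exact Or.inl h
  · rw [sel_ne hf] at h
    exact Or.inr h

theorem stE_spec {L : ℕ → ℕ} {nL m F s u A r c : ℕ} (h : stE L nL m F s u A r c = true) :
    StOK L nL m F s A r u := by
  rw [stE] at h
  rcases sel_cases h with h | h
  · left
    rw [fo_eq, stP, band_iff, band_iff, ble_iff, ble_iff, foA_eq] at h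
    obtain ⟨⟨h1, h2⟩, h3⟩ := h
    refine ⟨_, h1, _, h2, ?_⟩
    rw [stY] at h3
    rcases sel_cases h3 with h3 | h3
    · rw [nxE, band_iff, ble_iff, beq_iff] at h3
      exact Or.inl ⟨_, h3.1, h3.2⟩
    · rw [trE, band_iff, ble_iff, band_iff, beq_iff, beq_iff] at h3
      exact Or.inr ⟨_, h3.1, h3.2.1, h3.2.2⟩
  · right
    rw [stN] at h
    rcases sel_cases h with h | h
    · rw [ble_iff] at h
      exact Or.inl ⟨_, h⟩
    · rw [ble_iff] at h
      exact Or.inr h

theorem stA_spec {L : ℕ → ℕ} {nL m F s u A C : ℕ} : ∀ {n : ℕ}, stA L nL m F s u A C n = true →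
    ∀ r < n, StOK L nL m F s A r u
  | 0, _, r, hr => absurd hr (Nat.not_lt_zero r)
  | n + 1, h, r, hr => by
    have h' : band (stA L nL m F s u A C n) (stE L nL m F s u A n (c40 C n)) = true := h
    rw [band_iff] at h'
    rcases Nat.lt_succ_iff_lt_or_eq.1 hr with hr | rfl
    · exact stA_spec h'.1 r hr
    · exact stE_spec h'.2

theorem st_spec {K L : ℕ → ℕ} {nL m F s u a C : ℕ} : ∀ {n : ℕ},
    st K L nL m F s u a C n = true → ∀ i < n, ∀ r < 64, StOK L nL m F s (K (a + i)) r u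
  | 0, _, i, hi => absurd hi (Nat.not_lt_zero i)
  | n + 1, h, i, hi => by
    have h' : band (st K L nL m F s u a C n) (stA L nL m F s u (K (Nat.add a n))
      (Nat.land (Nat.shiftRight C (Nat.mul 2560 n)) m2560) 64) = true := h
    rw [band_iff] at h'
    rcases Nat.lt_succ_iff_lt_or_eq.1 hi with hi | rfl
    · exact st_spec h'.1 i hi
    · exact stA_spec h'.2

theorem st_use {K L : ℕ → ℕ} {nL m F s u a C n b : ℕ} (h : st K L nL m F s u a C n = true)
    (hb : a + n = b) {i : ℕ} (ha : a ≤ i) (hi : i < b) (r : ℕ) (hr : r < 64) :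
    StOK L nL m F s (K i) r u := by
  have h2 := st_spec h (i - a) (by omega) r hr
  have e : a + (i - a) = i := by omega
  rw [e] at h2
  exact h2

/-! ### The induction -/

/-- Up to permutations the first `t` rows are an entry of `K`. -/
def Lay (t : ℕ) (K : ℕ → ℕ) (n : ℕ) : Prop := ∀ s : St36, ∑ k, rc s k ≤ 18 → ¬ THit s →
  ∃ ρ γ : Equiv.Perm (Fin 6), Srt t (actS ρ γ s) ∧ ∃ i < n, pk t (actS ρ γ s) = K i

theorem lay_zero {K : ℕ → ℕ} (h : K 0 = 0) : Lay 0 K 1 := by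
  intro s _ _
  refine ⟨1, Tuple.sort (rc s), ?_, 0, one_pos, ?_⟩
  · intro k l hkl _
    rw [rc_act, rc_act]
    exact Tuple.monotone_sort (rc s) hkl
  · have h2 := pk_lt 0 (actS 1 (Tuple.sort (rc s)) s)
    rw [h]
    omega

theorem dgt_id : ∀ m < 7, ∀ q < Nat.factorial m, ∀ k < 6, m ≤ k → dgt q k = k := by
  decide +kernel

theorem lay_step {K L : ℕ → ℕ} {n nL : ℕ} (t : Fin 6)
    (h : ∀ i < n, ∀ r < 64, StOK L nL (2 ^ (6 * ((t : ℕ) + 1)) - 1)
      (Nat.factorial ((t : ℕ) + 1)) (6 * (t : ℕ)) (K i) r (6 - (t : ℕ)))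
    (hK : Lay t K n) : Lay ((t : ℕ) + 1) L nL := by
  intro s h18 hs
  obtain ⟨ρ, γ, hsrt, i, hi, he⟩ := hK s h18 hs
  have h18' : ∑ k, rc (actS ρ γ s) k ≤ 18 := by rw [sum_rc_act]; exact h18
  have hs' : ¬ THit (actS ρ γ s) := fun h => hs h.of_act
  have hact : ∀ ρ' γ', actS (ρ * ρ') (γ * γ') s = actS ρ' γ' (actS ρ γ s) :=
    fun ρ' γ' => (act_act ρ γ ρ' γ' s).symm
  generalize actS ρ γ s = s' at *
  have ht : (t : ℕ) + 1 < 7 := by omega
  rcases h i hi (rowN s' t) (rowN_lt s' t) with ⟨p, hp, q, hq, hh⟩ | ⟨k, hk⟩ | hge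
  · rw [← he, ← pk_succ] at hh
    rcases hh with ⟨i', hi', he'⟩ | ⟨i', hi', hm, hv⟩
    · rw [act_pk_eq s' ht hp hq] at he'
      refine ⟨ρ * permOf p, γ * permOf q, ?_, i', hi', ?_⟩
      · rw [hact]
        have hq' : q < 720 := lt_of_lt_of_le hq (Nat.factorial_le (by omega : (t : ℕ) + 1 ≤ 6))
        have hfix : ∀ k : Fin 6, (t : ℕ) + 1 ≤ (k : ℕ) → permOf q k = k := by
          intro k hk
          apply Fin.ext
          rw [permOf_val hq']
          exact dgt_id _ ht q hq k k.2 hk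
        intro k l hkl hl
        rw [rc_act, rc_act, hfix l hl]
        rcases Nat.lt_or_ge (k : ℕ) ((t : ℕ) + 1) with hk | hk
        · have h1 : ((permOf q k : Fin 6) : ℕ) < (t : ℕ) + 1 := by
            rw [permOf_val hq']
            exact dgt_fix _ ht q hq k hk
          exact hsrt _ _ (Fin.le_def.2 (by omega)) (by omega)
        · rw [hfix k hk]
          exact hsrt _ _ hkl (by omega)
      · rw [hact]
        exact he'
    · exfalso
      apply hs'
      refine THit.of_act (ρ := permOf p) (γ := permOf q) ⟨1, 1, i', hi', ?_, ?_⟩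
      · intro k j hkj
        have h1 := tb_of_and hm hkj
        rw [Nat.testBit_two_pow_sub_one, decide_eq_true_eq] at h1
        have h2 : (k : ℕ) < (t : ℕ) + 1 := by omega
        have h3 := act_pk s' ht hp hq k j h2
        show (actS (permOf p) (permOf q) s').1 k j = _
        rw [← h3, ← hv, Nat.testBit_and, hkj, Bool.and_true]
      · intro h36
        have h1 := tb_of_and hm h36
        rw [Nat.testBit_two_pow_sub_one, decide_eq_true_eq] at h1
        omega
  · exfalso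
    rw [← he, pc6_row] at hk
    rcases Nat.lt_or_ge k t with hkt | hkt
    · have hk6 : k < 6 := by omega
      have h1 := rw6_row t s' ⟨k, hk6⟩ hkt
      have h2 := hsrt ⟨k, hk6⟩ t (Fin.le_def.2 (le_of_lt hkt)) (le_refl _)
      rw [show rw6 (pk t s') k = rowN s' ⟨k, hk6⟩ from h1, pc6_row] at hk
      omega
    · rw [rw6_zero t s' k hkt] at hk
      exact absurd hk (Nat.not_lt_zero _)
  · exfalso
    rw [← he, pc6_row] at hge
    have := sum_ge t hsrt
    omega

/-- A step with explicit numbers. -/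
theorem lay_step' {K L : ℕ → ℕ} {n nL t m F s u : ℕ} (ht : t < 6)
    (hm : 2 ^ (6 * (t + 1)) - 1 = m) (hF : Nat.factorial (t + 1) = F) (hs : 6 * t = s)
    (hu : 6 - t = u) (h : ∀ i < n, ∀ r < 64, StOK L nL m F s (K i) r u)
    (hK : Lay t K n) : Lay (t + 1) L nL := by
  subst hm hF hs hu
  exact lay_step ⟨t, ht⟩ h hK

/-! ### Full matrices -/

/-- A pattern of the table, the first `2 ^ 18` also complemented, agrees with an image. -/
def HitQ (Q : ℕ → ℕ) (s : St36) : Prop := ∃ (ρ γ : Equiv.Perm (Fin 6)) (i : ℕ),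
  Agr (actS ρ γ s) (gM (Q i)) (gV (Q i)) ∨
    (Nat.ble (Nat.succ i) 262144 = true ∧ Agr (actS ρ γ s) (gM (Q i)) (gV (Q i) ^^^ gM (Q i)))

theorem HitQ.of_act {Q : ℕ → ℕ} {ρ γ : Equiv.Perm (Fin 6)} {s : St36}
    (h : HitQ Q (actS ρ γ s)) : HitQ Q s := by
  obtain ⟨ρ', γ', i, h⟩ := h
  rw [act_act] at h
  exact ⟨_, _, i, h⟩

/-- The matrix `X` with the sign `d` satisfies a pattern of the table. -/
def ClOK (Q : ℕ → ℕ) (X d : ℕ) : Prop := ∃ p < 720, ∃ q < 720, ∃ i,
  (act p q X ||| ((d ^^^ (pr p ^^^ pr q)) <<< 36)) &&& gM (Q i) = gV (Q i) ∨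
    (Nat.ble (Nat.succ i) 262144 = true ∧
      (act p q X ||| ((d ^^^ (pr p ^^^ pr q)) <<< 36)) &&& gM (Q i) = gV (Q i) ^^^ gM (Q i))

theorem clE_spec {Q : ℕ → ℕ} {X d c : ℕ} (h : clE Q X d c = true) : ClOK Q X d := by
  rw [clE, band_iff, band_iff, ble_iff, ble_iff, foA_eq, fo_eq, fo_eq] at h
  obtain ⟨⟨h1, h2⟩, h3⟩ := h
  refine ⟨_, h1, _, h2, Nat.shiftRight c 21, ?_⟩
  rcases sel_cases h3 with h3 | h3
  · rw [fo_eq, mtE, beq_iff] at h3
    exact Or.inl h3
  · rw [band_iff, fo_eq, mtN, beq_iff] at h3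
    exact Or.inr h3

theorem clK_spec {Q : ℕ → ℕ} {X C : ℕ} (h : clK Q X C = true) :
    (ClOK Q X 0 ∧ ClOK Q X 1) ∧ ClOK Q (cpl X) 0 ∧ ClOK Q (cpl X) 1 := by
  rw [clK, band_iff, band_iff, fo_eq, fo_eq, fo_eq, band_iff, fo_eq, fo_eq] at h
  exact ⟨⟨clE_spec h.1.1, clE_spec h.1.2⟩, clE_spec h.2.1, clE_spec h.2.2⟩

theorem cls_spec {K Q : ℕ → ℕ} {a C : ℕ} : ∀ {n : ℕ}, cls K Q a C n = true →
    ∀ i < n, (ClOK Q (K (a + i)) 0 ∧ ClOK Q (K (a + i)) 1) ∧
      ClOK Q (cpl (K (a + i))) 0 ∧ ClOK Q (cpl (K (a + i))) 1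
  | 0, _, i, hi => absurd hi (Nat.not_lt_zero i)
  | n + 1, h, i, hi => by
    have h' : band (cls K Q a C n) (clK Q (K (Nat.add a n))
      (Nat.land (Nat.shiftRight C (Nat.mul 160 n))
        1461501637330902918203684832716283019655932542975)) = true := h
    rw [band_iff] at h'
    rcases Nat.lt_succ_iff_lt_or_eq.1 hi with hi | rfl
    · exact cls_spec h'.1 i hi
    · exact clK_spec h'.2

/-- All matrices of the table `K` from `a` to `b`. -/
def ClR (K Q : ℕ → ℕ) (a b : ℕ) : Prop := ∀ i, a ≤ i → i < b →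
  (ClOK Q (K i) 0 ∧ ClOK Q (K i) 1) ∧
    ClOK Q (cpl (K i)) 0 ∧ ClOK Q (cpl (K i)) 1

theorem cls_use {K Q : ℕ → ℕ} {a C n b : ℕ} (h : cls K Q a C n = true)
    (hb : a + n = b) : ClR K Q a b := by
  intro i ha hi
  have h2 := cls_spec h (i - a) (by omega)
  have e : a + (i - a) = i := by omega
  rw [e] at h2
  exact h2

theorem ClR.append {K Q : ℕ → ℕ} {a b c : ℕ} (h : ClR K Q a b)
    (h' : ClR K Q b c) : ClR K Q a c := by
  intro i ha hi
  rcases Nat.lt_or_ge i b with hb | hb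
  · exact h i ha hb
  · exact h' i hb hi

theorem enc_act {p q : ℕ} (s : St36) (hp : p < 720) (hq : q < 720) :
    enc (actS (permOf p) (permOf q) s) =
      act p q (pk 6 s) ||| ((s.2.toNat ^^^ (pr p ^^^ pr q)) <<< 36) := by
  have h1 : act p q (pk 6 s) < 2 ^ 37 := by
    refine lt_of_lt_of_le (Nat.lt_pow_two_of_testBit _ fun i hi => act_tb' p q (pk 6 s) i hi)
      (Nat.pow_le_pow_right (n := 2) (i := 36) (j := 37) (by norm_num) (by norm_num))
  have h2 : ((s.2.toNat ^^^ (pr p ^^^ pr q)) <<< 36) < 2 ^ 37 := by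
    have e1 := pr_lt p
    have e2 := pr_lt q
    interval_cases pr p <;> interval_cases pr q <;> cases s.2 <;> decide
  refine bits37 (enc_lt _) (Nat.or_lt_two_pow h1 h2) ?_ ?_
  · intro k j
    have h3 := act_pk (t := 6) s (by norm_num) hp hq k j k.2
    rw [enc_tb, ← h3, Nat.testBit_or, Nat.testBit_shiftLeft, decide_eq_false (by omega),
      Bool.false_and, Bool.or_false]
  · have e0 : (actS (permOf p) (permOf q) s).2 =
        xor s.2 (xor (par (permOf p)) (par (permOf q))) := rfl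
    rw [enc_tb36, e0, ← pr_xor _ hp hq, Nat.testBit_or, act_tb' _ _ _ _ (le_refl _),
      Bool.false_or, Nat.testBit_shiftLeft, decide_eq_true (le_refl _), Bool.true_and,
      Nat.sub_self]

theorem hit_of_cl {Q : ℕ → ℕ} {X : ℕ} {s : St36} (h : pk 6 s = X)
    (h0 : ClOK Q X 0) (h1 : ClOK Q X 1) : HitQ Q s := by
  have hd : ClOK Q X s.2.toNat := by
    cases s.2
    · exact h0
    · exact h1
  subst h
  obtain ⟨p, hp, q, hq, i, h | ⟨hi, h⟩⟩ := hd
  · refine ⟨permOf p, permOf q, i, Or.inl ?_⟩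
    show enc _ &&& _ = _
    rw [enc_act s hp hq]
    exact h
  · refine ⟨permOf p, permOf q, i, Or.inr ⟨hi, ?_⟩⟩
    show enc _ &&& _ = _
    rw [enc_act s hp hq]
    exact h

/-! ### Complements -/

/-- The complementary state. -/
def fl (s : St36) : St36 := (fun k j => !s.1 k j, !s.2)

theorem fl_act (ρ γ : Equiv.Perm (Fin 6)) (s : St36) : actS ρ γ (fl s) = fl (actS ρ γ s) := by
  refine Prod.ext rfl ?_
  show xor (!s.2) (xor (par ρ) (par γ)) = !(xor s.2 (xor (par ρ) (par γ)))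
  cases s.2 <;> cases par ρ <;> cases par γ <;> rfl

theorem sat_fl {m v : ℕ} {s : St36} (h : Sat m v (fl s)) : Sat m (v ^^^ m) s := by
  refine ⟨?_, ?_⟩
  · intro k j hkj
    have h1 : (!s.1 k j) = v.testBit (6 * k + j) := h.1 k j hkj
    rw [Nat.testBit_xor, hkj, ← h1]
    cases s.1 k j <;> rfl
  · intro h36
    have h1 : (!s.2) = v.testBit 36 := h.2 h36
    rw [Nat.testBit_xor, h36, ← h1]
    cases s.2 <;> rfl

theorem rc_fl (s : St36) (k : Fin 6) : rc (fl s) k + rc s k = 6 := by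
  rw [rc, rc, ← Finset.sum_add_distrib]
  have : ∀ j ∈ (Finset.univ : Finset (Fin 6)), ((fl s).1 k j).toNat + (s.1 k j).toNat = 1 := by
    intro j _
    show (!s.1 k j).toNat + (s.1 k j).toNat = 1
    cases s.1 k j <;> rfl
  rw [Finset.sum_congr rfl this]
  simp

theorem sum_rc_fl (s : St36) : ∑ k, rc (fl s) k + ∑ k, rc s k = 36 := by
  rw [← Finset.sum_add_distrib, Finset.sum_congr rfl fun k _ => rc_fl s k]
  simp

theorem pk_fl (s : St36) : pk 6 s = cpl (pk 6 (fl s)) := by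
  apply Nat.eq_of_testBit_eq
  intro i
  have e : cpl (pk 6 (fl s)) = pk 6 (fl s) ^^^ (2 ^ 36 - 1) := rfl
  rw [e, Nat.testBit_xor, Nat.testBit_two_pow_sub_one, pk_tb, pk_tb]
  by_cases h : i < 36
  · rw [decide_eq_true (by omega : i < 6 * 6), Bool.true_and, Bool.true_and]
    have hk : i / 6 < 6 := by omega
    have h1 : sb (fl s) i = !(sb s i) := by
      rw [sb, sb, dif_pos hk, dif_pos hk]
      rfl
    rw [h1]
    cases sb s i <;> rfl
  · rw [decide_eq_false (by omega : ¬ i < 6 * 6)]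
    rfl

/-- **Every state is covered**: it or its complement satisfies a simple pattern up to
permutations, or it satisfies a pattern of the table. -/
theorem cover {K Q : ℕ → ℕ} {n : ℕ} (hT : Lay 6 K n) (hc : ClR K Q 0 n)
    (s : St36) : THit s ∨ THit (fl s) ∨ HitQ Q s := by
  by_cases h18 : ∑ k, rc s k ≤ 18
  · by_cases ht : THit s
    · exact Or.inl ht
    · obtain ⟨ρ, γ, -, i, hi, he⟩ := hT s h18 ht
      have h := hc i (Nat.zero_le _) hi
      exact Or.inr (Or.inr (HitQ.of_act (hit_of_cl he h.1.1 h.1.2)))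
  · have h18' : ∑ k, rc (fl s) k ≤ 18 := by
      have := sum_rc_fl s
      omega
    by_cases ht : THit (fl s)
    · exact Or.inr (Or.inl ht)
    · obtain ⟨ρ, γ, -, i, hi, he⟩ := hT _ h18' ht
      have h := hc i (Nat.zero_le _) hi
      rw [fl_act] at he
      have he' : pk 6 (actS ρ γ s) = cpl (K i) := by rw [← he]; exact pk_fl _
      exact Or.inr (Or.inr (HitQ.of_act (hit_of_cl he' h.2.1 h.2.2)))

end Pool.Agent.H27.Z12.CT
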