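import Mathlib
import Pool.Agent.H27.Z12.CT
import Pool.Agent.H28.Z12.CTab2
import Pool.Agent.H28.Z12.TR.Triv

/-!
No bad configuration from a cover of the 6 x 6 sign matrices up to permutations and complements
(MP_1e71f9_co).
-/

set_option autoImplicit false

namespace Pool.Agent.H27.Z12.CT

open Pool.Agent.H77.Z12 Pool.Agent.H13.Z12 Pool.Agent.H28.Z12 Pool.Agent.H28.Z12.Cov
open Pool.Agent.H28.Z12.TR

/-- Permuted columns. -/
theorem good_cols {m w m' w' : ℕ} (h : Good m w) (ρ : Equiv.Perm (Fin 6))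
    (h36 : m.testBit 36 = false)
    (hh : ∀ k j : Fin 6, m.testBit (6 * k + j) = true → m'.testBit (6 * k + ρ j) = true ∧
      w'.testBit (6 * k + ρ j) = w.testBit (6 * k + j)) : Good m' w' := by
  intro M hb hM hs
  refine h.act hb hM ρ 1 ⟨?_, ?_⟩
  · intro k j hkj
    obtain ⟨h1, h2⟩ := hh k j hkj
    show (stt M).1 k (ρ j) = _
    rw [← h2]
    exact hs.1 k (ρ j) h1
  · intro h
    rw [h36] at h
    exact absurd h Bool.false_ne_true

theorem tE2 : Good2 4095 195 :=
  good2_of_pair gE2 (good_cols gE4 (Equiv.addRight (2 : Fin 6)) (by decide +kernel)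
    (w' := 3900) (m' := 4095) (by decide +kernel)) (by decide +kernel)

theorem tE3 : Good2 4095 455 :=
  good2_of_pair gE3 (good_cols gE3 (Equiv.addRight (3 : Fin 6)) (by decide +kernel)
    (w' := 3640) (m' := 4095) (by decide +kernel)) (by decide +kernel)

theorem tE4 : Good2 4095 975 :=
  good2_of_pair gE4 (good_cols gE2 (Equiv.addRight (4 : Fin 6)) (by decide +kernel)
    (w' := 3120) (m' := 4095) (by decide +kernel)) (by decide +kernel)

/-- The simple patterns and their complements are excluded. -/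
theorem triv2 : ∀ i < 7, Good2 (ngM TP i) (ngV TP i) := by
  intro i hi
  interval_cases i
  · exact good2_entry (by decide +kernel) (by decide +kernel) tR
  · exact good2_entry (m := 63) (w := 63 ^^^ 63) (by decide +kernel) (by decide +kernel)
      (Good2.compl tR)
  · exact good2_entry (by decide +kernel) (by decide +kernel) tC
  · exact good2_entry (m := 1090785345) (w := 1090785345 ^^^ 1090785345) (by decide +kernel)
      (by decide +kernel) (Good2.compl tC)
  · exact good2_entry (by decide +kernel) (by decide +kernel) tE2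
  · exact good2_entry (by decide +kernel) (by decide +kernel) tE3
  · exact good2_entry (by decide +kernel) (by decide +kernel) tE4

variable {R : St36 → ℕ}

/-- **No bad configuration from a table of excluded patterns which covers all full matrices.** -/
theorem not_bad_of_cover {K Q : ℕ → ℕ} {n : ℕ} (hR : ∀ (ρ γ : Equiv.Perm (Fin 6)) (s : St36),
    R (actS ρ γ s) = R s) (hN : ∃ N, ∀ s, R s < N) (hT : Lay 6 K n) (hc : ClR K Q 0 n)
    (h2 : ∀ i, Nat.ble (Nat.succ i) 262144 = true → CX2 R (gM (Q i)) (gV (Q i)))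
    (h1 : ∀ i, CX R (gM (Q i)) (gV (Q i))) (v : Fin 12 → Fin 6 → ℝ) : ¬ Bad v := by
  intro hv
  obtain ⟨M, hb, hM, hr⟩ := exists_max_chart hN hv
  rcases cover hT hc (stt M) with ⟨ρ, γ, i, hi, h⟩ | ⟨ρ, γ, i, hi, h⟩ | ⟨ρ, γ, i, ha⟩
  · exact (triv2 i hi).1.act hb hM ρ γ h
  · rw [fl_act] at h
    exact (triv2 i hi).2.act hb hM ρ γ (sat_fl h)
  · have hr' : MaxOf R (R (stt fun i c => M (ρ i) (γ c))) := by
      rw [stt_perm hb, hR]
      exact hr
    rw [← stt_perm hb] at ha
    rcases ha with ha | ⟨hi, ha⟩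
    · exact h1 i _ (bad_perm hb ρ γ) (fun i c => hM _ _) hr' ha
    · exact (h2 i hi).2 _ (bad_perm hb ρ γ) (fun i c => hM _ _) hr' ha

theorem not_bad_rr {K Q : ℕ → ℕ} {n F G : ℕ} (hT : Lay 6 K n) (hc : ClR K Q 0 n)
    (h2 : ∀ i, Nat.ble (Nat.succ i) 262144 = true → CX2 (RR F G) (gM (Q i)) (gV (Q i)))
    (h1 : ∀ i, CX (RR F G) (gM (Q i)) (gV (Q i))) (v : Fin 12 → Fin 6 → ℝ) : ¬ Bad v :=
  not_bad_of_cover (rr_act F G) ⟨_, rr_lt F G⟩ hT hc h2 h1 v

end Pool.Agent.H27.Z12.CT
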